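import Mathlib

/-!
# Subgraph discrepancy between a graph and its complement

For a fixed graph `H` with at least one edge the minimum over all `n`-vertex graphs `G` of
`max_S |h(G[S]) - h(Gᶜ[S])|` has order of magnitude `n ^ (v(H) - 1/2)`.
-/

set_option autoImplicit false

namespace Pool.Agent.Results.MP_e6b4fa_co.Theta

open Finset

/-! ### A counting lemma -/


/-- Resampling one coordinate. -/
theorem resample {k : ℕ} {V : Type*} [DecidableEq V] (S : Finset V)
    (X : (Fin k → V) → ℝ) (i : Fin k) :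
    (S.card : ℝ) * ∑ φ ∈ Fintype.piFinset (fun _ : Fin k => S), X φ
      = ∑ φ ∈ Fintype.piFinset (fun _ : Fin k => S), ∑ u ∈ S, X (Function.update φ i u) := by
  have h1 : ∑ φ ∈ Fintype.piFinset (fun _ : Fin k => S), ∑ u ∈ S, X (Function.update φ i u)
      = ∑ p ∈ (Fintype.piFinset (fun _ : Fin k => S)) ×ˢ S, X (Function.update p.1 i p.2) := by
    rw [Finset.sum_product]
  have h2 : ∑ p ∈ (Fintype.piFinset (fun _ : Fin k => S)) ×ˢ S, X (Function.update p.1 i p.2)
      = ∑ p ∈ (Fintype.piFinset (fun _ : Fin k => S)) ×ˢ S, X p.1 := by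
    refine Finset.sum_nbij' (fun p => (Function.update p.1 i p.2, p.1 i))
      (fun p => (Function.update p.1 i p.2, p.1 i)) ?_ ?_ ?_ ?_ ?_
    · intro p hp
      rw [Finset.mem_product, Fintype.mem_piFinset] at hp ⊢
      refine ⟨fun j => ?_, hp.1 i⟩
      by_cases hj : j = i
      · subst hj; simpa using hp.2
      · simpa [Function.update_of_ne hj] using hp.1 j
    · intro p hp
      rw [Finset.mem_product, Fintype.mem_piFinset] at hp ⊢
      refine ⟨fun j => ?_, hp.1 i⟩
      by_cases hj : j = i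
      · subst hj; simpa using hp.2
      · simpa [Function.update_of_ne hj] using hp.1 j
    · intro p _; simp
    · intro p _; simp
    · intro p _; rfl
  rw [h1, h2, Finset.sum_product]
  simp [Finset.mul_sum, mul_comm]

/-- Key estimate for one edge. -/
theorem key {k : ℕ} {V : Type*} [DecidableEq V] (S : Finset V)
    (i j : Fin k) (hij : i ≠ j) (F : Finset (Fin k × Fin k))
    (hF : ∀ e ∈ F, ¬ ((e.1 = i ∧ e.2 = j) ∨ (e.1 = j ∧ e.2 = i)))
    (w : Fin k × Fin k → V → V → ℝ) (h01 : ∀ e u v, w e u v = 0 ∨ w e u v = 1)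
    (c : V → V → ℝ) (Δ : ℝ)
    (hcut : ∀ A ⊆ S, ∀ B ⊆ S, |∑ u ∈ A, ∑ v ∈ B, c u v| ≤ Δ) :
    |∑ φ ∈ Fintype.piFinset (fun _ : Fin k => S),
        c (φ i) (φ j) * ∏ e ∈ F, w e (φ e.1) (φ e.2)| ≤ Δ * (S.card : ℝ) ^ (k - 2) := by
  classical
  have hk2 : 2 ≤ k := by
    rcases i with ⟨i, hi⟩; rcases j with ⟨j, hj⟩
    have : i ≠ j := fun h => hij (by subst h; rfl)
    omega
  have hΔ : 0 ≤ Δ := by
    have := hcut ∅ (by simp) ∅ (by simp)
    simpa using this
  rcases S.eq_empty_or_nonempty with hS | hS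
  · subst hS
    have : Fintype.piFinset (fun _ : Fin k => (∅ : Finset V)) = ∅ := by
      ext φ
      simp only [Fintype.mem_piFinset, Finset.notMem_empty, iff_false]
      intro h; exact h i
    rw [this]; simp
    positivity
  have hSpos : (0 : ℝ) < S.card := by exact_mod_cast hS.card_pos
  set X : (Fin k → V) → ℝ := fun φ => c (φ i) (φ j) * ∏ e ∈ F, w e (φ e.1) (φ e.2) with hX
  have hr : (S.card : ℝ) * ((S.card : ℝ) * ∑ φ ∈ Fintype.piFinset (fun _ : Fin k => S), X φ)
      = ∑ φ ∈ Fintype.piFinset (fun _ : Fin k => S), ∑ u ∈ S, ∑ v ∈ S,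
          X (Function.update (Function.update φ i u) j v) := by
    rw [resample S X j, resample S (fun φ => ∑ v ∈ S, X (Function.update φ j v)) i]
  have hbound : ∀ φ : Fin k → V, |∑ u ∈ S, ∑ v ∈ S,
      X (Function.update (Function.update φ i u) j v)| ≤ Δ := by
    intro φ
    -- the two factors
    set f : V → ℝ := fun u => ∏ e ∈ F with ¬ (e.1 = j ∨ e.2 = j),
      w e ((Function.update φ i u) e.1) ((Function.update φ i u) e.2) with hf
    set g : V → ℝ := fun v => ∏ e ∈ F with (e.1 = j ∨ e.2 = j),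
      w e ((Function.update φ j v) e.1) ((Function.update φ j v) e.2) with hg
    have hf01 : ∀ u, f u = 0 ∨ f u = 1 := by
      intro u
      rw [hf]
      by_cases h : ∃ e ∈ F.filter (fun e => ¬ (e.1 = j ∨ e.2 = j)),
          w e ((Function.update φ i u) e.1) ((Function.update φ i u) e.2) = 0
      · left; obtain ⟨e, he, he0⟩ := h; exact Finset.prod_eq_zero he he0
      · right
        apply Finset.prod_eq_one
        intro e he
        exact (h01 e _ _).resolve_left (fun h0 => h ⟨e, he, h0⟩)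
    have hg01 : ∀ v, g v = 0 ∨ g v = 1 := by
      intro v
      rw [hg]
      by_cases h : ∃ e ∈ F.filter (fun e => (e.1 = j ∨ e.2 = j)),
          w e ((Function.update φ j v) e.1) ((Function.update φ j v) e.2) = 0
      · left; obtain ⟨e, he, he0⟩ := h; exact Finset.prod_eq_zero he he0
      · right
        apply Finset.prod_eq_one
        intro e he
        exact (h01 e _ _).resolve_left (fun h0 => h ⟨e, he, h0⟩)
    have hfac : ∀ u v, X (Function.update (Function.update φ i u) j v) = c u v * (f u * g v) := by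
      intro u v
      rw [hX]
      simp only
      congr 1
      · simp [Function.update_of_ne hij]
      · rw [← Finset.prod_filter_mul_prod_filter_not F (fun e => (e.1 = j ∨ e.2 = j))]
        rw [mul_comm]
        congr 1
        · apply Finset.prod_congr rfl
          intro e he
          rw [Finset.mem_filter, not_or] at he
          rw [Function.update_of_ne he.2.1, Function.update_of_ne he.2.2]
        · apply Finset.prod_congr rfl
          intro e he
          rw [Finset.mem_filter] at he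
          have h1 : e.1 ≠ i := by
            intro h1
            have h2 := hF e he.1
            rcases he.2 with h3 | h3
            · exact hij (h1.symm.trans h3)
            · exact h2 (Or.inl ⟨h1, h3⟩)
          have h2 : e.2 ≠ i := by
            intro h1
            have h2 := hF e he.1
            rcases he.2 with h3 | h3
            · exact h2 (Or.inr ⟨h3, h1⟩)
            · exact hij (h1.symm.trans h3)
          have h3 : ∀ x : Fin k, x ≠ i →
              Function.update (Function.update φ i u) j v x = Function.update φ j v x := by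
            intro x hx
            by_cases hxj : x = j
            · subst hxj; simp
            · rw [Function.update_of_ne hxj, Function.update_of_ne hxj, Function.update_of_ne hx]
          rw [h3 _ h1, h3 _ h2]
    have hsum : ∑ u ∈ S, ∑ v ∈ S, X (Function.update (Function.update φ i u) j v)
        = ∑ u ∈ S.filter (fun u => f u = 1), ∑ v ∈ S.filter (fun v => g v = 1), c u v := by
      rw [Finset.sum_filter]
      apply Finset.sum_congr rfl
      intro u _
      by_cases hu : f u = 1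
      · rw [if_pos hu, Finset.sum_filter]
        apply Finset.sum_congr rfl
        intro v _
        rw [hfac, hu]
        by_cases hv : g v = 1
        · rw [if_pos hv, hv]; ring
        · rw [if_neg hv, (hg01 v).resolve_right hv]; ring
      · rw [if_neg hu]
        apply Finset.sum_eq_zero
        intro v _
        rw [hfac, (hf01 u).resolve_right hu]; ring
    rw [hsum]
    exact hcut _ (Finset.filter_subset _ _) _ (Finset.filter_subset _ _)
  have habs : (S.card : ℝ) * ((S.card : ℝ) *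
      |∑ φ ∈ Fintype.piFinset (fun _ : Fin k => S), X φ|) ≤ (S.card : ℝ) ^ k * Δ := by
    calc (S.card : ℝ) * ((S.card : ℝ) * |∑ φ ∈ Fintype.piFinset (fun _ : Fin k => S), X φ|)
        = |(S.card : ℝ) * ((S.card : ℝ) * ∑ φ ∈ Fintype.piFinset (fun _ : Fin k => S), X φ)| := by
          rw [abs_mul, abs_mul, abs_of_pos hSpos]
      _ ≤ ∑ φ ∈ Fintype.piFinset (fun _ : Fin k => S), |∑ u ∈ S, ∑ v ∈ S,
          X (Function.update (Function.update φ i u) j v)| := by
          rw [hr]; exact Finset.abs_sum_le_sum_abs _ _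
      _ ≤ ∑ φ ∈ Fintype.piFinset (fun _ : Fin k => S), Δ := Finset.sum_le_sum (fun φ _ => hbound φ)
      _ = (S.card : ℝ) ^ k * Δ := by
          rw [Finset.sum_const, Fintype.card_piFinset]; simp
  have hpow : (S.card : ℝ) ^ k = (S.card : ℝ) ^ 2 * (S.card : ℝ) ^ (k - 2) := by
    rw [← pow_add]; congr 1; omega
  rw [hpow] at habs
  have : (S.card : ℝ) ^ 2 * |∑ φ ∈ Fintype.piFinset (fun _ : Fin k => S), X φ|
      ≤ (S.card : ℝ) ^ 2 * (Δ * (S.card : ℝ) ^ (k - 2)) := by nlinarith
  exact le_of_mul_le_mul_left this (by positivity)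

/-- Counting lemma. -/
theorem count {k : ℕ} {V : Type*} [DecidableEq V] (S : Finset V)
    (w : Fin k × Fin k → V → V → ℝ) (h01 : ∀ e u v, w e u v = 0 ∨ w e u v = 1)
    (δ : Fin k × Fin k → ℝ) (hδ0 : ∀ e, 0 ≤ δ e) (hδ1 : ∀ e, δ e ≤ 1) (Δ : ℝ)
    (F : Finset (Fin k × Fin k)) (hF : ∀ e ∈ F, e.1 < e.2)
    (hcut : ∀ e ∈ F, ∀ A ⊆ S, ∀ B ⊆ S, |∑ u ∈ A, ∑ v ∈ B, (w e u v - δ e)| ≤ Δ) :
    |∑ φ ∈ Fintype.piFinset (fun _ : Fin k => S), ∏ e ∈ F, w e (φ e.1) (φ e.2)
        - (∏ e ∈ F, δ e) * (S.card : ℝ) ^ k| ≤ (F.card : ℝ) * (Δ * (S.card : ℝ) ^ (k - 2)) := by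
  classical
  induction F using Finset.induction_on with
  | empty => simp [Fintype.card_piFinset]
  | insert e₀ F he₀ ih =>
    have ih' := ih (fun e he => hF e (Finset.mem_insert_of_mem he))
      (fun e he => hcut e (Finset.mem_insert_of_mem he))
    have hlt := hF e₀ (Finset.mem_insert_self _ _)
    have hkey := key S e₀.1 e₀.2 (ne_of_lt hlt) F (by
      intro e he hcon
      have hlt' := hF e (Finset.mem_insert_of_mem he)
      rcases hcon with ⟨h1, h2⟩ | ⟨h1, h2⟩
      · exact he₀ (by rw [← Prod.ext h1 h2]; exact he)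
      · rw [h1, h2] at hlt'; exact absurd hlt' (not_lt.mpr hlt.le)) w h01
      (fun u v => w e₀ u v - δ e₀) Δ (hcut e₀ (Finset.mem_insert_self _ _))
    have hsplit : ∑ φ ∈ Fintype.piFinset (fun _ : Fin k => S),
          ∏ e ∈ insert e₀ F, w e (φ e.1) (φ e.2)
        - (∏ e ∈ insert e₀ F, δ e) * (S.card : ℝ) ^ k
        = (∑ φ ∈ Fintype.piFinset (fun _ : Fin k => S),
            (w e₀ (φ e₀.1) (φ e₀.2) - δ e₀) * ∏ e ∈ F, w e (φ e.1) (φ e.2))
          + δ e₀ * (∑ φ ∈ Fintype.piFinset (fun _ : Fin k => S), ∏ e ∈ F, w e (φ e.1) (φ e.2)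
        - (∏ e ∈ F, δ e) * (S.card : ℝ) ^ k) := by
      simp only [Finset.prod_insert he₀, sub_mul, Finset.sum_sub_distrib, ← Finset.mul_sum]
      ring
    rw [hsplit, Finset.card_insert_of_notMem he₀]
    have h2 : |δ e₀ * (∑ φ ∈ Fintype.piFinset (fun _ : Fin k => S),
        ∏ e ∈ F, w e (φ e.1) (φ e.2) - (∏ e ∈ F, δ e) * (S.card : ℝ) ^ k)|
        ≤ (F.card : ℝ) * (Δ * (S.card : ℝ) ^ (k - 2)) := by
      rw [abs_mul, abs_of_nonneg (hδ0 e₀)]
      calc δ e₀ * |∑ φ ∈ Fintype.piFinset (fun _ : Fin k => S),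
            ∏ e ∈ F, w e (φ e.1) (φ e.2) - (∏ e ∈ F, δ e) * (S.card : ℝ) ^ k|
          ≤ 1 * |∑ φ ∈ Fintype.piFinset (fun _ : Fin k => S),
            ∏ e ∈ F, w e (φ e.1) (φ e.2) - (∏ e ∈ F, δ e) * (S.card : ℝ) ^ k| :=
            mul_le_mul_of_nonneg_right (hδ1 e₀) (abs_nonneg _)
        _ ≤ _ := by rw [one_mul]; exact ih'
    calc _ ≤ |∑ φ ∈ Fintype.piFinset (fun _ : Fin k => S),
            (w e₀ (φ e₀.1) (φ e₀.2) - δ e₀) * ∏ e ∈ F, w e (φ e.1) (φ e.2)|
          + |δ e₀ * (∑ φ ∈ Fintype.piFinset (fun _ : Fin k => S), ∏ e ∈ F, w e (φ e.1) (φ e.2)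
        - (∏ e ∈ F, δ e) * (S.card : ℝ) ^ k)| := abs_add_le _ _
      _ ≤ Δ * (S.card : ℝ) ^ (k - 2) + (F.card : ℝ) * (Δ * (S.card : ℝ) ^ (k - 2)) :=
          add_le_add hkey h2
      _ = _ := by push_cast; ring

/-- The number of maps into `S` that are not injective. -/
theorem noninj {k : ℕ} {V : Type*} [DecidableEq V] (S : Finset V) :
    ((((Fintype.piFinset (fun _ : Fin k => S)).filter (fun φ => ¬ Function.Injective φ)).card : ℕ) : ℝ)
      ≤ (k : ℝ) ^ 2 * (S.card : ℝ) ^ (k - 1) := by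
  classical
  rcases S.eq_empty_or_nonempty with hS | hS
  · subst hS
    rcases Nat.eq_zero_or_pos k with hk | hk
    · subst hk
      have : (Fintype.piFinset (fun _ : Fin 0 => (∅ : Finset V))).filter
          (fun φ => ¬ Function.Injective φ) = ∅ := by
        apply Finset.filter_false_of_mem
        intro φ _ h
        exact h (Function.injective_of_subsingleton φ)
      rw [this]; simp
    · have : Fintype.piFinset (fun _ : Fin k => (∅ : Finset V)) = ∅ := by
        ext φ
        simp only [Fintype.mem_piFinset, Finset.notMem_empty, iff_false]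
        intro h; exact h ⟨0, hk⟩
      rw [this]; simp; positivity
  have hSpos : (0 : ℝ) < S.card := by exact_mod_cast hS.card_pos
  have hpair : ∀ i j : Fin k, i ≠ j →
      ((((Fintype.piFinset (fun _ : Fin k => S)).filter (fun φ => φ i = φ j)).card : ℕ) : ℝ)
        ≤ (S.card : ℝ) ^ (k - 1) := by
    intro i j hij
    have hk1 : 1 ≤ k := Nat.one_le_iff_ne_zero.mpr (by rintro rfl; exact i.elim0)
    have h1 := resample S (fun φ : Fin k → V => if φ i = φ j then (1 : ℝ) else 0) j
    have h2 : ∑ φ ∈ Fintype.piFinset (fun _ : Fin k => S), ∑ u ∈ S,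
        (if (Function.update φ j u) i = (Function.update φ j u) j then (1 : ℝ) else 0)
        = (S.card : ℝ) ^ k := by
      have : ∀ φ ∈ Fintype.piFinset (fun _ : Fin k => S), ∑ u ∈ S,
        (if (Function.update φ j u) i = (Function.update φ j u) j then (1 : ℝ) else 0) = 1 := by
        intro φ hφ
        rw [Fintype.mem_piFinset] at hφ
        simp only [Function.update_of_ne hij, Function.update_self]
        rw [Finset.sum_ite_eq S (φ i) (fun _ => (1 : ℝ)), if_pos (hφ i)]
      rw [Finset.sum_congr rfl this, Finset.sum_const, Fintype.card_piFinset]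
      simp
    rw [h2, ← Finset.sum_filter, Finset.sum_const, nsmul_eq_mul, mul_one] at h1
    have hpow : (S.card : ℝ) ^ k = (S.card : ℝ) * (S.card : ℝ) ^ (k - 1) := by
      rw [← pow_succ']; congr 1; omega
    rw [hpow] at h1
    exact (mul_left_cancel₀ hSpos.ne' h1).le
  have hsub : (Fintype.piFinset (fun _ : Fin k => S)).filter (fun φ => ¬ Function.Injective φ)
      ⊆ (Finset.univ.filter (fun p : Fin k × Fin k => p.1 ≠ p.2)).biUnion
        (fun p => (Fintype.piFinset (fun _ : Fin k => S)).filter (fun φ => φ p.1 = φ p.2)) := by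
    intro φ hφ
    rw [Finset.mem_filter] at hφ
    obtain ⟨hφ1, hφ2⟩ := hφ
    unfold Function.Injective at hφ2
    push Not at hφ2
    obtain ⟨a, b, hab, hne⟩ := hφ2
    rw [Finset.mem_biUnion]
    exact ⟨(a, b), by simp [hne], by rw [Finset.mem_filter]; exact ⟨hφ1, hab⟩⟩
  calc ((((Fintype.piFinset (fun _ : Fin k => S)).filter
        (fun φ => ¬ Function.Injective φ)).card : ℕ) : ℝ)
      ≤ (((Finset.univ.filter (fun p : Fin k × Fin k => p.1 ≠ p.2)).biUnion
        (fun p => (Fintype.piFinset (fun _ : Fin k => S)).filter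
          (fun φ => φ p.1 = φ p.2))).card : ℝ) := by
        exact_mod_cast Finset.card_le_card hsub
    _ ≤ ∑ p ∈ Finset.univ.filter (fun p : Fin k × Fin k => p.1 ≠ p.2),
        (((Fintype.piFinset (fun _ : Fin k => S)).filter (fun φ => φ p.1 = φ p.2)).card : ℝ) := by
        exact_mod_cast Finset.card_biUnion_le
    _ ≤ ∑ p ∈ Finset.univ.filter (fun p : Fin k × Fin k => p.1 ≠ p.2), (S.card : ℝ) ^ (k - 1) := by
        apply Finset.sum_le_sum
        intro p hp
        rw [Finset.mem_filter] at hp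
        exact hpair p.1 p.2 hp.2
    _ ≤ ∑ p : Fin k × Fin k, (S.card : ℝ) ^ (k - 1) := by
        apply Finset.sum_le_sum_of_subset_of_nonneg (Finset.subset_univ _)
        intro _ _ _; positivity
    _ = (k : ℝ) ^ 2 * (S.card : ℝ) ^ (k - 1) := by
        rw [Finset.sum_const, Finset.card_univ, Fintype.card_prod, Fintype.card_fin, nsmul_eq_mul]
        push_cast; ring


/-! ### From all subsets to a weighted sum over pairs -/


/-- A finite signed measure on `[0,1/2]` extracting the linear coefficient of polynomials of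
degree at most `k`. -/
theorem exists_measure (k : ℕ) : ∃ (lam s : Fin (k + 1) → ℝ), (∀ r, 0 ≤ s r ∧ s r ≤ 1 / 2) ∧
    ∀ j : ℕ, j ≤ k → ∑ r, lam r * s r ^ j = if j = 1 then 1 else 0 := by
  set v : Fin (k + 1) → ℝ := fun r => (r : ℝ) / (2 * (k + 1)) with hv
  have hinj : Set.InjOn v (↑(Finset.univ : Finset (Fin (k + 1)))) := by
    intro a _ b _ hab
    simp only [hv] at hab
    have hk : (2 * ((k : ℝ) + 1)) ≠ 0 := by positivity
    have : (a : ℝ) = (b : ℝ) := by
      field_simp at hab; exact_mod_cast hab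
    exact Fin.ext (by exact_mod_cast this)
  refine ⟨fun r => (Lagrange.basis Finset.univ v r).coeff 1, v, ?_, ?_⟩
  · intro r
    have hr : (r : ℝ) ≤ k := by exact_mod_cast Nat.lt_succ_iff.mp r.2
    constructor
    · simp only [hv]; positivity
    · simp only [hv]
      rw [div_le_div_iff₀ (by positivity) (by norm_num)]
      nlinarith
  · intro j hj
    have hdeg : ((Polynomial.X : Polynomial ℝ) ^ j).degree < (Finset.univ : Finset (Fin (k + 1))).card := by
      rw [Polynomial.degree_X_pow, Finset.card_univ, Fintype.card_fin]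
      exact_mod_cast Nat.lt_succ_of_le hj
    have h := Lagrange.eq_interpolate hinj hdeg
    have h2 := congrArg (fun p => Polynomial.coeff p 1) h
    simp only [Polynomial.coeff_X_pow, Lagrange.interpolate_apply, Polynomial.finsetSum_coeff,
      Polynomial.coeff_C_mul, Polynomial.eval_pow, Polynomial.eval_X] at h2
    rw [Finset.sum_congr rfl (fun r _ => mul_comm _ _), ← h2]
    by_cases hj1 : j = 1
    · simp [hj1]
    · rw [if_neg hj1, if_neg (fun h => hj1 h.symm)]

/-- Extraction of the linear coefficient of a product. -/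
theorem ext1 {k : ℕ} {ι : Type*} [DecidableEq ι] (lam s : Fin (k + 1) → ℝ)
    (h : ∀ j : ℕ, j ≤ k → ∑ r, lam r * s r ^ j = if j = 1 then 1 else 0)
    (I : Finset ι) (hI : I.card ≤ k) (a c : ι → ℝ) :
    ∑ r, lam r * ∏ l ∈ I, (c l + s r * a l) = ∑ i ∈ I, a i * ∏ l ∈ I.erase i, c l := by
  have h1 : ∀ r, lam r * ∏ l ∈ I, (c l + s r * a l)
      = ∑ T ∈ I.powerset, (lam r * s r ^ T.card) * ((∏ l ∈ T, a l) * ∏ l ∈ I \ T, c l) := by
    intro r
    rw [Finset.prod_congr rfl (fun l _ => add_comm (c l) (s r * a l)), Finset.prod_add,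
      Finset.mul_sum]
    apply Finset.sum_congr rfl
    intro T _
    rw [Finset.prod_mul_distrib, Finset.prod_const]
    ring
  rw [Finset.sum_congr rfl (fun r _ => h1 r), Finset.sum_comm]
  have h2 : ∀ T ∈ I.powerset, ∑ r, (lam r * s r ^ T.card) * ((∏ l ∈ T, a l) * ∏ l ∈ I \ T, c l)
      = if T.card = 1 then ((∏ l ∈ T, a l) * ∏ l ∈ I \ T, c l) else 0 := by
    intro T hT
    rw [← Finset.sum_mul, h T.card (le_trans (Finset.card_le_card (Finset.mem_powerset.mp hT)) hI)]
    split_ifs <;> simp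
  rw [Finset.sum_congr rfl h2, ← Finset.sum_filter]
  have h3 : I.powerset.filter (fun T => T.card = 1) = I.map ⟨_, Finset.singleton_injective⟩ := by
    rw [← Finset.powersetCard_one]
    ext T; simp [Finset.mem_powersetCard]
  rw [h3, Finset.sum_map]
  apply Finset.sum_congr rfl
  intro i _
  simp [Finset.sdiff_singleton_eq_erase]

/-- A multi-affine form bounded on vertices of the cube is bounded on the cube. -/
theorem multiaffine {k : ℕ} {V : Type*} [Fintype V] [DecidableEq V]
    (γ : (Fin k → V) → ℝ) (M : ℝ)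
    (hM : ∀ T : Finset V, |∑ φ : Fin k → V with Function.Injective φ,
      γ φ * ∏ i, (if φ i ∈ T then (1 : ℝ) else 0)| ≤ M)
    (z : V → ℝ) (hz0 : ∀ v, 0 ≤ z v) (hz1 : ∀ v, z v ≤ 1) :
    |∑ φ : Fin k → V with Function.Injective φ, γ φ * ∏ i, z (φ i)| ≤ M := by
  set wt : Finset V → ℝ := fun T => (∏ v ∈ T, z v) * ∏ v ∈ Finset.univ \ T, (1 - z v) with hwt
  have hwt0 : ∀ T, 0 ≤ wt T := by
    intro T
    apply mul_nonneg
    · exact Finset.prod_nonneg (fun v _ => hz0 v)
    · exact Finset.prod_nonneg (fun v _ => by linarith [hz1 v])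
  have hwt1 : ∑ T ∈ (Finset.univ : Finset V).powerset, wt T = 1 := by
    rw [hwt]
    rw [← Finset.prod_add]
    apply Finset.prod_eq_one
    intro v _; ring
  have hφ : ∀ φ : Fin k → V, Function.Injective φ →
      ∑ T ∈ (Finset.univ : Finset V).powerset, wt T * ∏ i, (if φ i ∈ T then (1 : ℝ) else 0)
        = ∏ i, z (φ i) := by
    intro φ hinj
    have h1 : ∏ v : V, (z v + (1 - z v) * (if v ∈ Finset.univ.image φ then (0 : ℝ) else 1))
        = ∏ i, z (φ i) := by
      have : ∀ v : V, (z v + (1 - z v) * (if v ∈ Finset.univ.image φ then (0 : ℝ) else 1))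
          = if v ∈ Finset.univ.image φ then z v else 1 := by
        intro v; split_ifs <;> ring
      rw [Finset.prod_congr rfl (fun v _ => this v), Finset.prod_ite_mem, Finset.univ_inter,
        Finset.prod_image (fun a _ b _ hab => hinj hab)]
    rw [← h1, Finset.prod_add]
    apply Finset.sum_congr rfl
    intro T _
    rw [hwt]
    simp only
    rw [mul_assoc]
    congr 1
    rw [Finset.prod_mul_distrib]
    congr 1
    by_cases hall : ∀ i, φ i ∈ T
    · rw [Finset.prod_eq_one (fun i _ => if_pos (hall i))]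
      symm
      apply Finset.prod_eq_one
      intro v hv
      rw [if_neg]
      rw [Finset.mem_image]
      rintro ⟨i, _, rfl⟩
      exact (Finset.mem_sdiff.mp hv).2 (hall i)
    · push Not at hall
      obtain ⟨i, hi⟩ := hall
      rw [Finset.prod_eq_zero (Finset.mem_univ i) (if_neg hi)]
      symm
      apply Finset.prod_eq_zero (i := φ i)
      · rw [Finset.mem_sdiff]; exact ⟨Finset.mem_univ _, hi⟩
      · rw [if_pos]; exact Finset.mem_image_of_mem _ (Finset.mem_univ _)
  have hexp : ∑ φ : Fin k → V with Function.Injective φ, γ φ * ∏ i, z (φ i)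
      = ∑ T ∈ (Finset.univ : Finset V).powerset, wt T *
        ∑ φ : Fin k → V with Function.Injective φ, γ φ * ∏ i, (if φ i ∈ T then (1 : ℝ) else 0) := by
    simp only [Finset.mul_sum]
    rw [Finset.sum_comm]
    apply Finset.sum_congr rfl
    intro φ hφm
    rw [← hφ φ (Finset.mem_filter.mp hφm).2, Finset.mul_sum]
    apply Finset.sum_congr rfl
    intro T _; ring
  rw [hexp]
  calc _ ≤ ∑ T ∈ (Finset.univ : Finset V).powerset, |wt T *
        ∑ φ : Fin k → V with Function.Injective φ, γ φ * ∏ i, (if φ i ∈ T then (1 : ℝ) else 0)| :=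
        Finset.abs_sum_le_sum_abs _ _
    _ ≤ ∑ T ∈ (Finset.univ : Finset V).powerset, wt T * M := by
        apply Finset.sum_le_sum
        intro T _
        rw [abs_mul, abs_of_nonneg (hwt0 T)]
        exact mul_le_mul_of_nonneg_left (hM T) (hwt0 T)
    _ = M := by rw [← Finset.sum_mul, hwt1, one_mul]

/-- sign of a Boolean -/
def sg (x : Bool) : ℝ := if x then 1 else -1

theorem sg_sq (x : Bool) : sg x * sg x = 1 := by unfold sg; split_ifs <;> norm_num

theorem sg_not (x : Bool) : sg (!x) = - sg x := by unfold sg; cases x <;> simp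

theorem flip_sum {V : Type*} [Fintype V] [DecidableEq V] (v : V) (F : (V → Bool) → ℝ)
    (hF : ∀ ε, F (Function.update ε v (!(ε v))) = F ε) :
    ∑ ε : V → Bool, sg (ε v) * F ε = 0 := by
  have h : ∑ ε : V → Bool, sg (ε v) * F ε = ∑ ε : V → Bool, - (sg (ε v) * F ε) := by
    refine Finset.sum_nbij' (fun ε => Function.update ε v (!(ε v)))
      (fun ε => Function.update ε v (!(ε v))) ?_ ?_ ?_ ?_ ?_
    · intro ε _; exact Finset.mem_univ _
    · intro ε _; exact Finset.mem_univ _
    · intro ε _; simp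
    · intro ε _; simp
    · intro ε _
      simp only [Function.update_self]
      rw [hF, sg_not]; ring
  rw [Finset.sum_neg_distrib] at h
  linarith

/-- Rademacher sum over `A`. -/
noncomputable def X {V : Type*} (A : Finset V) (c : V → ℝ) (ε : V → Bool) : ℝ :=
  ∑ v ∈ A, sg (ε v) * c v

theorem X_flip {V : Type*} [DecidableEq V] (A : Finset V) (c : V → ℝ) (ε : V → Bool) (v : V)
    (hv : v ∉ A) (x : Bool) : X A c (Function.update ε v x) = X A c ε := by
  unfold X
  apply Finset.sum_congr rfl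
  intro u hu
  have hne : u ≠ v := by
    rintro rfl
    exact hv hu
  rw [Function.update_of_ne hne]

theorem second_moment {V : Type*} [Fintype V] [DecidableEq V] (A : Finset V) (c : V → ℝ) :
    ∑ ε : V → Bool, X A c ε ^ 2 = 2 ^ (Fintype.card V) * ∑ v ∈ A, c v ^ 2 := by
  induction A using Finset.induction_on with
  | empty => simp [X]
  | insert v A hv ih =>
    have h1 : ∀ ε : V → Bool, X (insert v A) c ε ^ 2
        = X A c ε ^ 2 + 2 * c v * (sg (ε v) * X A c ε) + c v ^ 2 := by
      intro ε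
      have : X (insert v A) c ε = sg (ε v) * c v + X A c ε := by
        unfold X; rw [Finset.sum_insert hv]
      rw [this]
      have h2 := sg_sq (ε v)
      calc (sg (ε v) * c v + X A c ε) ^ 2
          = X A c ε ^ 2 + 2 * c v * (sg (ε v) * X A c ε) + (sg (ε v) * sg (ε v)) * c v ^ 2 := by
            ring
        _ = _ := by rw [h2, one_mul]
    rw [Finset.sum_congr rfl (fun ε _ => h1 ε), Finset.sum_add_distrib, Finset.sum_add_distrib,
      ← Finset.mul_sum, flip_sum v (fun ε => X A c ε) (fun ε => X_flip A c ε v hv _), ih,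
      Finset.sum_insert hv, Finset.sum_const, Finset.card_univ]
    simp
    ring

theorem fourth_moment {V : Type*} [Fintype V] [DecidableEq V] (A : Finset V) (c : V → ℝ) :
    ∑ ε : V → Bool, X A c ε ^ 4 ≤ 2 ^ (Fintype.card V) * (3 * (∑ v ∈ A, c v ^ 2) ^ 2) := by
  induction A using Finset.induction_on with
  | empty => simp [X]
  | insert v A hv ih =>
    have h1 : ∀ ε : V → Bool, X (insert v A) c ε ^ 4
        = X A c ε ^ 4 + 4 * c v * (sg (ε v) * X A c ε ^ 3) + 6 * c v ^ 2 * X A c ε ^ 2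
          + 4 * c v ^ 3 * (sg (ε v) * X A c ε) + c v ^ 4 := by
      intro ε
      have : X (insert v A) c ε = sg (ε v) * c v + X A c ε := by
        unfold X; rw [Finset.sum_insert hv]
      rw [this]
      have h2 := sg_sq (ε v)
      set s := sg (ε v)
      set x := X A c ε
      calc (s * c v + x) ^ 4
          = x ^ 4 + 4 * c v * (s * x ^ 3) + 6 * c v ^ 2 * x ^ 2 * (s * s)
            + 4 * c v ^ 3 * (s * x) * (s * s) + c v ^ 4 * ((s * s) * (s * s)) := by ring
        _ = _ := by rw [h2]; ring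
    rw [Finset.sum_congr rfl (fun ε _ => h1 ε)]
    simp only [Finset.sum_add_distrib, ← Finset.mul_sum]
    rw [flip_sum v (fun ε => X A c ε) (fun ε => X_flip A c ε v hv _),
      flip_sum v (fun ε => X A c ε ^ 3) (fun ε => by rw [X_flip A c ε v hv _]),
      second_moment A c, Finset.sum_insert hv, Finset.sum_const, Finset.card_univ]
    have hc : (Fintype.card (V → Bool)) • c v ^ 4 = 2 ^ (Fintype.card V) * c v ^ 4 := by
      simp
    rw [hc]
    have hp : (0 : ℝ) < 2 ^ (Fintype.card V) := by positivity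
    set P : ℝ := 2 ^ (Fintype.card V)
    set σ : ℝ := ∑ v ∈ A, c v ^ 2
    have h4 : 0 ≤ P * c v ^ 4 := by positivity
    nlinarith

theorem abs_ge_poly (y : ℝ) (hy : 0 ≤ y) : 3 / 4 * (y ^ 2 - y ^ 4 / 12) ≤ y := by
  have : y - 3 / 4 * (y ^ 2 - y ^ 4 / 12) = y * ((y - 2) ^ 2 * (y + 4)) / 16 := by ring
  have h2 : 0 ≤ y * ((y - 2) ^ 2 * (y + 4)) / 16 := by positivity
  linarith

/-- Khintchine's inequality, with the weak constant `9/16`. -/
theorem khintchine {V : Type*} [Fintype V] [DecidableEq V] (A : Finset V) (c : V → ℝ) :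
    9 / 16 * Real.sqrt (∑ v ∈ A, c v ^ 2) * 2 ^ (Fintype.card V)
      ≤ ∑ ε : V → Bool, |X A c ε| := by
  set σ2 : ℝ := ∑ v ∈ A, c v ^ 2 with hσ2
  have hσ2nn : 0 ≤ σ2 := Finset.sum_nonneg (fun v _ => sq_nonneg _)
  rcases hσ2nn.eq_or_lt with h0 | hpos
  · rw [← h0]; simp
    exact Finset.sum_nonneg (fun _ _ => abs_nonneg _)
  set σ : ℝ := Real.sqrt σ2 with hσ
  have hσpos : 0 < σ := Real.sqrt_pos.mpr hpos
  have hσsq : σ ^ 2 = σ2 := Real.sq_sqrt hσ2nn
  have hpt : ∀ ε : V → Bool, 3 / 4 * (X A c ε ^ 2 / σ - X A c ε ^ 4 / (12 * σ ^ 3)) ≤ |X A c ε| := by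
    intro ε
    have h := abs_ge_poly (|X A c ε| / σ) (by positivity)
    have h1 : (|X A c ε| / σ) ^ 2 = X A c ε ^ 2 / σ ^ 2 := by
      rw [div_pow, sq_abs]
    have h2 : (|X A c ε| / σ) ^ 4 = X A c ε ^ 4 / σ ^ 4 := by
      rw [div_pow]; congr 1
      calc |X A c ε| ^ 4 = (|X A c ε| ^ 2) ^ 2 := by ring
        _ = (X A c ε ^ 2) ^ 2 := by rw [sq_abs]
        _ = X A c ε ^ 4 := by ring
    rw [h1, h2] at h
    have h3 : 3 / 4 * (X A c ε ^ 2 / σ - X A c ε ^ 4 / (12 * σ ^ 3))
        = σ * (3 / 4 * (X A c ε ^ 2 / σ ^ 2 - X A c ε ^ 4 / σ ^ 4 / 12)) := by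
      field_simp
    rw [h3]
    calc _ ≤ σ * (|X A c ε| / σ) := mul_le_mul_of_nonneg_left h hσpos.le
      _ = |X A c ε| := by field_simp
  have hsum := Finset.sum_le_sum (fun (ε : V → Bool) (_ : ε ∈ Finset.univ) => hpt ε)
  have h2 := second_moment A c
  have h4 := fourth_moment A c
  rw [← hσ2] at h2 h4
  have hL : ∑ ε : V → Bool, 3 / 4 * (X A c ε ^ 2 / σ - X A c ε ^ 4 / (12 * σ ^ 3))
      = 3 / 4 * ((∑ ε : V → Bool, X A c ε ^ 2) / σ
        - (∑ ε : V → Bool, X A c ε ^ 4) / (12 * σ ^ 3)) := by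
    rw [← Finset.mul_sum, Finset.sum_sub_distrib, Finset.sum_div, Finset.sum_div]
  rw [hL, h2] at hsum
  refine le_trans ?_ hsum
  have hP : (0 : ℝ) < 2 ^ (Fintype.card V) := by positivity
  set P : ℝ := 2 ^ (Fintype.card V)
  have h5 : (∑ ε : V → Bool, X A c ε ^ 4) / (12 * σ ^ 3) ≤ P * σ / 4 := by
    rw [div_le_iff₀ (by positivity)]
    calc _ ≤ P * (3 * σ2 ^ 2) := h4
      _ = P * σ / 4 * (12 * σ ^ 3) := by rw [← hσsq]; ring
  have h6 : P * σ2 / σ = P * σ := by
    rw [← hσsq]; field_simp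
  rw [h6]
  nlinarith

/-- Main abstract inequality. -/
theorem L1bound (k : ℕ) : ∃ C : ℝ, 0 < C ∧ ∀ (V : Type) [Fintype V] [DecidableEq V]
    (γ : (Fin k → V) → ℝ) (M : ℝ)
    (_ : ∀ T : Finset V, |∑ φ : Fin k → V with Function.Injective φ,
      γ φ * ∏ i, (if φ i ∈ T then (1 : ℝ) else 0)| ≤ M)
    (S : Finset V) (ψ : V → V → ℝ) (_ : ∀ u v, |ψ u v| ≤ 1),
    |∑ φ : Fin k → V with Function.Injective φ,
      (γ φ * ∏ i, (if φ i ∈ S then (1 : ℝ) else 0)) *
        ∑ i, ∑ j ∈ Finset.univ.erase i, ψ (φ i) (φ j)| ≤ C * Real.sqrt S.card * M := by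
  obtain ⟨lam, s, hs, hext⟩ := exists_measure k
  set L : ℝ := ∑ r, |lam r| with hL
  have hLnn : 0 ≤ L := Finset.sum_nonneg (fun _ _ => abs_nonneg _)
  refine ⟨16 / 9 * (2 ^ k * L ^ 2 + 1), by positivity, ?_⟩
  intro V _ _ γ M hM S ψ hψ
  have hM0 : 0 ≤ M := le_trans (abs_nonneg _) (hM ∅)
  set γS : (Fin k → V) → ℝ := fun φ => γ φ * ∏ i, (if φ i ∈ S then (1 : ℝ) else 0) with hγS
  -- bilinear form
  have hbil : ∀ a b : V → ℝ, (∀ v, |a v| ≤ 1) → (∀ v, |b v| ≤ 1) →
      |∑ φ : Fin k → V with Function.Injective φ,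
        γS φ * ∑ i, a (φ i) * ∑ j ∈ Finset.univ.erase i, b (φ j)| ≤ 2 ^ k * L ^ 2 * M := by
    intro a b ha hb
    have hz : ∀ r q : Fin (k + 1), |∑ φ : Fin k → V with Function.Injective φ,
        γS φ * ∏ i, ((1 + s q * b (φ i)) + s r * a (φ i))| ≤ 2 ^ k * M := by
      intro r q
      have h1 := multiaffine γ M hM
        (fun v => if v ∈ S then ((1 + s q * b v) + s r * a v) / 2 else 0) (by
          intro v
          split_ifs
          · have h1 := abs_le.mp (ha v); have h2 := abs_le.mp (hb v)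
            have h3 := hs r; have h4 := hs q
            nlinarith
          · exact le_rfl) (by
          intro v
          split_ifs
          · have h1 := abs_le.mp (ha v); have h2 := abs_le.mp (hb v)
            have h3 := hs r; have h4 := hs q
            nlinarith
          · norm_num)
      have h2 : ∑ φ : Fin k → V with Function.Injective φ,
          γS φ * ∏ i, ((1 + s q * b (φ i)) + s r * a (φ i))
          = 2 ^ k * ∑ φ : Fin k → V with Function.Injective φ, γ φ * ∏ i,
            (if φ i ∈ S then ((1 + s q * b (φ i)) + s r * a (φ i)) / 2 else 0) := by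
        rw [Finset.mul_sum]
        apply Finset.sum_congr rfl
        intro φ _
        rw [hγS]
        simp only
        rw [mul_assoc, ← Finset.prod_mul_distrib, mul_left_comm]
        congr 1
        have h3 : ∀ i : Fin k, (if φ i ∈ S then (1 : ℝ) else 0)
            * ((1 + s q * b (φ i)) + s r * a (φ i))
            = 2 * (if φ i ∈ S then ((1 + s q * b (φ i)) + s r * a (φ i)) / 2 else 0) := by
          intro i; split_ifs <;> ring
        rw [Finset.prod_congr rfl (fun i _ => h3 i), Finset.prod_mul_distrib, Finset.prod_const,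
          Finset.card_univ, Fintype.card_fin]
      rw [h2, abs_mul, abs_of_pos (by positivity : (0 : ℝ) < 2 ^ k)]
      exact mul_le_mul_of_nonneg_left h1 (by positivity)
    have hid : ∑ φ : Fin k → V with Function.Injective φ,
        γS φ * ∑ i, a (φ i) * ∑ j ∈ Finset.univ.erase i, b (φ j)
        = ∑ q, ∑ r, lam q * lam r * ∑ φ : Fin k → V with Function.Injective φ,
          γS φ * ∏ i, ((1 + s q * b (φ i)) + s r * a (φ i)) := by
      have h1 : ∀ φ : Fin k → V, ∑ i, a (φ i) * ∑ j ∈ Finset.univ.erase i, b (φ j)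
          = ∑ q, ∑ r, lam q * lam r * ∏ i, ((1 + s q * b (φ i)) + s r * a (φ i)) := by
        intro φ
        have h2 : ∀ q, ∑ r, lam r * ∏ i, ((1 + s q * b (φ i)) + s r * a (φ i))
            = ∑ i, a (φ i) * ∏ l ∈ Finset.univ.erase i, (1 + s q * b (φ l)) := by
          intro q
          exact ext1 lam s hext Finset.univ (by simp) (fun i => a (φ i))
            (fun i => 1 + s q * b (φ i))
        have h3 : ∀ i : Fin k, ∑ q, lam q * ∏ l ∈ Finset.univ.erase i, (1 + s q * b (φ l))
            = ∑ j ∈ Finset.univ.erase i, b (φ j) := by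
          intro i
          rw [ext1 lam s hext (Finset.univ.erase i) (by
            rw [Finset.card_erase_of_mem (Finset.mem_univ i)]; simp)
            (fun i => b (φ i)) (fun _ => 1)]
          simp
        calc ∑ i, a (φ i) * ∑ j ∈ Finset.univ.erase i, b (φ j)
            = ∑ i, ∑ q, lam q * (a (φ i) * ∏ l ∈ Finset.univ.erase i, (1 + s q * b (φ l))) := by
              apply Finset.sum_congr rfl
              intro i _
              rw [← h3 i, Finset.mul_sum]
              apply Finset.sum_congr rfl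
              intro q _; ring
          _ = ∑ q, lam q * ∑ i, a (φ i) * ∏ l ∈ Finset.univ.erase i, (1 + s q * b (φ l)) := by
              rw [Finset.sum_comm]
              apply Finset.sum_congr rfl
              intro q _
              rw [Finset.mul_sum]
          _ = _ := by
              apply Finset.sum_congr rfl
              intro q _
              rw [← h2 q, Finset.mul_sum]
              apply Finset.sum_congr rfl
              intro r _; ring
      rw [Finset.sum_congr rfl (fun φ _ => by rw [h1 φ])]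
      simp only [Finset.mul_sum]
      rw [Finset.sum_comm]
      apply Finset.sum_congr rfl
      intro q _
      rw [Finset.sum_comm]
      apply Finset.sum_congr rfl
      intro r _
      apply Finset.sum_congr rfl
      intro φ _
      ring
    rw [hid]
    calc _ ≤ ∑ q, ∑ r, |lam q| * |lam r| * (2 ^ k * M) := by
          refine le_trans (Finset.abs_sum_le_sum_abs _ _) (Finset.sum_le_sum (fun q _ => ?_))
          refine le_trans (Finset.abs_sum_le_sum_abs _ _) (Finset.sum_le_sum (fun r _ => ?_))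
          rw [abs_mul, abs_mul]
          exact mul_le_mul_of_nonneg_left (hz r q) (by positivity)
      _ = 2 ^ k * L ^ 2 * M := by
          rw [hL, sq, Finset.sum_mul_sum]
          simp only [Finset.mul_sum, Finset.sum_mul]
          apply Finset.sum_congr rfl
          intro q _
          apply Finset.sum_congr rfl
          intro r _
          ring
  -- the kernel
  set Φ : V → V → ℝ := fun u v => ∑ φ : Fin k → V with Function.Injective φ,
    γS φ * ∑ i, (if φ i = u then (1 : ℝ) else 0) *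
      ∑ j ∈ Finset.univ.erase i, (if φ j = v then (1 : ℝ) else 0) with hΦ
  have hΦS : ∀ u v, v ∉ S → Φ u v = 0 := by
    intro u v hv
    rw [hΦ]
    apply Finset.sum_eq_zero
    intro φ _
    by_cases hall : ∀ i, φ i ∈ S
    · have : ∀ j, (if φ j = v then (1 : ℝ) else 0) = 0 := by
        intro j
        rw [if_neg]
        rintro rfl; exact hv (hall j)
      simp [this]
    · push Not at hall
      obtain ⟨i, hi⟩ := hall
      rw [hγS]
      simp only
      rw [Finset.prod_eq_zero (Finset.mem_univ i) (if_neg hi)]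
      ring
  have hrep : ∀ χ : V → V → ℝ, ∑ φ : Fin k → V with Function.Injective φ,
      γS φ * ∑ i, ∑ j ∈ Finset.univ.erase i, χ (φ i) (φ j) = ∑ u, ∑ v, χ u v * Φ u v := by
    intro χ
    have h1 : ∀ φ : Fin k → V, ∑ i, ∑ j ∈ Finset.univ.erase i, χ (φ i) (φ j)
        = ∑ u, ∑ v, χ u v * ∑ i, (if φ i = u then (1 : ℝ) else 0) *
          ∑ j ∈ Finset.univ.erase i, (if φ j = v then (1 : ℝ) else 0) := by
      intro φ
      symm
      calc ∑ u, ∑ v, χ u v * ∑ i, (if φ i = u then (1 : ℝ) else 0) *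
          ∑ j ∈ Finset.univ.erase i, (if φ j = v then (1 : ℝ) else 0)
          = ∑ i, ∑ j ∈ Finset.univ.erase i, ∑ u, ∑ v, χ u v * ((if φ i = u then (1 : ℝ) else 0) *
            (if φ j = v then (1 : ℝ) else 0)) := by
            simp only [Finset.mul_sum]
            rw [Finset.sum_congr rfl (fun u _ => Finset.sum_comm)]
            rw [Finset.sum_comm]
            apply Finset.sum_congr rfl
            intro i _
            rw [Finset.sum_congr rfl (fun u _ => Finset.sum_comm)]
            rw [Finset.sum_comm]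
        _ = ∑ i, ∑ j ∈ Finset.univ.erase i, χ (φ i) (φ j) := by
            apply Finset.sum_congr rfl
            intro i _
            apply Finset.sum_congr rfl
            intro j _
            rw [Finset.sum_eq_single (φ i)]
            · rw [Finset.sum_eq_single (φ j)]
              · simp
              · intro v _ hv
                rw [if_neg (Ne.symm hv)]; ring
              · intro h; exact absurd (Finset.mem_univ _) h
            · intro u _ hu
              apply Finset.sum_eq_zero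
              intro v _
              rw [if_neg (Ne.symm hu)]; ring
            · intro h; exact absurd (Finset.mem_univ _) h
    obtain ⟨K, hK⟩ : ∃ K : (Fin k → V) → V → V → ℝ, ∀ φ u v, K φ u v
        = ∑ i, (if φ i = u then (1 : ℝ) else 0) *
          ∑ j ∈ Finset.univ.erase i, (if φ j = v then (1 : ℝ) else 0) := ⟨_, fun _ _ _ => rfl⟩
    have hΦK : ∀ u v, Φ u v = ∑ φ : Fin k → V with Function.Injective φ, γS φ * K φ u v := by
      intro u v
      rw [hΦ]
      apply Finset.sum_congr rfl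
      intro φ _
      rw [hK]
    have h1K : ∀ φ : Fin k → V, ∑ i, ∑ j ∈ Finset.univ.erase i, χ (φ i) (φ j)
        = ∑ u, ∑ v, χ u v * K φ u v := by
      intro φ
      rw [h1 φ]
      apply Finset.sum_congr rfl
      intro u _
      apply Finset.sum_congr rfl
      intro v _
      rw [hK]
    calc ∑ φ : Fin k → V with Function.Injective φ,
          γS φ * ∑ i, ∑ j ∈ Finset.univ.erase i, χ (φ i) (φ j)
        = ∑ φ : Fin k → V with Function.Injective φ, ∑ u, ∑ v, χ u v * (γS φ * K φ u v) := by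
          apply Finset.sum_congr rfl
          intro φ _
          rw [h1K φ, Finset.mul_sum]
          apply Finset.sum_congr rfl
          intro u _
          rw [Finset.mul_sum]
          apply Finset.sum_congr rfl
          intro v _
          ring
      _ = ∑ u, ∑ v, χ u v * Φ u v := by
          rw [Finset.sum_comm]
          apply Finset.sum_congr rfl
          intro u _
          rw [Finset.sum_comm]
          apply Finset.sum_congr rfl
          intro v _
          rw [hΦK, Finset.mul_sum]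
  have hε : ∀ ε : V → Bool, ∑ u, |X S (fun v => Φ u v) ε| ≤ 2 ^ k * L ^ 2 * M := by
    intro ε
    have h1 := hbil (fun u => if 0 ≤ X S (fun v => Φ u v) ε then 1 else -1) (fun v => sg (ε v))
      (by intro v; split_ifs <;> simp) (by intro v; unfold sg; split_ifs <;> simp)
    have h2 := hrep (fun u v => (if 0 ≤ X S (fun v => Φ u v) ε then (1 : ℝ) else -1) * sg (ε v))
    have h2' : ∑ φ : Fin k → V with Function.Injective φ,
        γS φ * ∑ i, (if 0 ≤ X S (fun v => Φ (φ i) v) ε then (1 : ℝ) else -1) *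
          ∑ j ∈ Finset.univ.erase i, sg (ε (φ j))
        = ∑ u, ∑ v, (if 0 ≤ X S (fun v => Φ u v) ε then (1 : ℝ) else -1) * sg (ε v) * Φ u v := by
      rw [← h2]
      apply Finset.sum_congr rfl
      intro φ _
      congr 1
      apply Finset.sum_congr rfl
      intro i _
      rw [Finset.mul_sum]
    rw [h2'] at h1
    have h3 : ∀ u, ∑ v, (if 0 ≤ X S (fun v => Φ u v) ε then (1 : ℝ) else -1) * sg (ε v) * Φ u v
        = |X S (fun v => Φ u v) ε| := by
      intro u
      have h4 : ∑ v, (if 0 ≤ X S (fun v => Φ u v) ε then (1 : ℝ) else -1) * sg (ε v) * Φ u v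
          = (if 0 ≤ X S (fun v => Φ u v) ε then (1 : ℝ) else -1) * X S (fun v => Φ u v) ε := by
        rw [show X S (fun v => Φ u v) ε = ∑ v, sg (ε v) * Φ u v by
          unfold X
          apply Finset.sum_subset (Finset.subset_univ _)
          intro v _ hv
          show sg (ε v) * Φ u v = 0
          rw [hΦS u v hv]; ring]
        rw [Finset.mul_sum]
        apply Finset.sum_congr rfl
        intro v _; ring
      rw [h4]
      split_ifs with h5
      · rw [abs_of_nonneg h5]; ring
      · rw [abs_of_neg (not_le.mp h5)]; ring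
    rw [Finset.sum_congr rfl (fun u _ => h3 u)] at h1
    exact le_trans (le_abs_self _) h1
  have hsumε : ∑ u, ∑ ε : V → Bool, |X S (fun v => Φ u v) ε|
      ≤ 2 ^ (Fintype.card V) * (2 ^ k * L ^ 2 * M) := by
    rw [Finset.sum_comm]
    calc _ ≤ ∑ ε : V → Bool, 2 ^ k * L ^ 2 * M := Finset.sum_le_sum (fun ε _ => hε ε)
      _ = _ := by rw [Finset.sum_const, Finset.card_univ]; simp
  have hσ : ∑ u, Real.sqrt (∑ v ∈ S, Φ u v ^ 2) ≤ 16 / 9 * (2 ^ k * L ^ 2 * M) := by
    have h1 : ∑ u, 9 / 16 * Real.sqrt (∑ v ∈ S, Φ u v ^ 2) * 2 ^ (Fintype.card V)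
        ≤ 2 ^ (Fintype.card V) * (2 ^ k * L ^ 2 * M) :=
      le_trans (Finset.sum_le_sum (fun u _ => khintchine S (fun v => Φ u v))) hsumε
    rw [← Finset.sum_mul, ← Finset.mul_sum, mul_comm] at h1
    have h2 := le_of_mul_le_mul_left h1 (by positivity)
    linarith
  have hCS : ∀ u, ∑ v ∈ S, |Φ u v| ≤ Real.sqrt S.card * Real.sqrt (∑ v ∈ S, Φ u v ^ 2) := by
    intro u
    rw [← Real.sqrt_mul (by positivity)]
    apply Real.le_sqrt_of_sq_le
    have := sq_sum_le_card_mul_sum_sq (s := S) (f := fun v => |Φ u v|)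
    simpa [sq_abs] using this
  have hfin : ∑ φ : Fin k → V with Function.Injective φ,
      γS φ * ∑ i, ∑ j ∈ Finset.univ.erase i, ψ (φ i) (φ j) = ∑ u, ∑ v ∈ S, ψ u v * Φ u v := by
    rw [hrep ψ]
    apply Finset.sum_congr rfl
    intro u _
    symm
    apply Finset.sum_subset (Finset.subset_univ _)
    intro v _ hv
    rw [hΦS u v hv]; ring
  rw [hfin]
  calc |∑ u, ∑ v ∈ S, ψ u v * Φ u v| ≤ ∑ u, ∑ v ∈ S, |Φ u v| := by
        refine le_trans (Finset.abs_sum_le_sum_abs _ _) (Finset.sum_le_sum (fun u _ => ?_))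
        refine le_trans (Finset.abs_sum_le_sum_abs _ _) (Finset.sum_le_sum (fun v _ => ?_))
        rw [abs_mul]
        calc |ψ u v| * |Φ u v| ≤ 1 * |Φ u v| := mul_le_mul_of_nonneg_right (hψ u v) (abs_nonneg _)
          _ = |Φ u v| := one_mul _
    _ ≤ ∑ u, Real.sqrt S.card * Real.sqrt (∑ v ∈ S, Φ u v ^ 2) :=
        Finset.sum_le_sum (fun u _ => hCS u)
    _ = Real.sqrt S.card * ∑ u, Real.sqrt (∑ v ∈ S, Φ u v ^ 2) := by rw [Finset.mul_sum]
    _ ≤ Real.sqrt S.card * (16 / 9 * (2 ^ k * L ^ 2 * M)) :=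
        mul_le_mul_of_nonneg_left hσ (Real.sqrt_nonneg _)
    _ ≤ 16 / 9 * (2 ^ k * L ^ 2 + 1) * Real.sqrt S.card * M := by
        have : 0 ≤ Real.sqrt S.card * M := mul_nonneg (Real.sqrt_nonneg _) hM0
        nlinarith


/-! ### Copies -/


section copies

variable {V W : Type*} {G : SimpleGraph V} {H : SimpleGraph W}

/-- the copy attached to a subgraph and an isomorphism -/
def mkCopy (G' : G.Subgraph) (e : H ≃g G'.coe) : SimpleGraph.Copy H G :=
  ⟨G'.hom.comp e.toHom, SimpleGraph.Subgraph.hom_injective.comp e.injective⟩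

theorem mkCopy_apply (G' : G.Subgraph) (e : H ≃g G'.coe) (x : W) :
    mkCopy G' e x = (e x : V) := rfl

theorem mkCopy_toSubgraph (G' : G.Subgraph) (e : H ≃g G'.coe) :
    (mkCopy G' e).toSubgraph = G' := by
  simp [SimpleGraph.Copy.toSubgraph, mkCopy, SimpleGraph.Subgraph.map_comp]

theorem card_copies [Finite V] [Finite W] :
    Nat.card (SimpleGraph.Copy H G)
      = Nat.card {G' : G.Subgraph // Nonempty (H ≃g G'.coe)} * Nat.card (H ≃g H) := by
  classical
  rw [← Nat.card_prod]
  symm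
  apply Nat.card_congr
  refine Equiv.ofBijective
    (fun p : {G' : G.Subgraph // Nonempty (H ≃g G'.coe)} × (H ≃g H) =>
      mkCopy p.1.1 (p.2.trans (Classical.choice p.1.2))) ⟨?_, ?_⟩
  · rintro ⟨⟨G1, h1⟩, σ1⟩ ⟨⟨G2, h2⟩, σ2⟩ h
    simp only at h
    have hG : G1 = G2 := by
      rw [← mkCopy_toSubgraph G1 (σ1.trans (Classical.choice h1)), h, mkCopy_toSubgraph]
    subst hG
    congr 1
    apply RelIso.ext
    intro x
    have hx := DFunLike.congr_fun h x
    rw [mkCopy_apply, mkCopy_apply] at hx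
    have hx2 := Subtype.ext hx
    rw [RelIso.trans_apply, RelIso.trans_apply] at hx2
    exact (Classical.choice h1).injective hx2
  · intro f
    refine ⟨(⟨f.toSubgraph, ⟨f.isoToSubgraph⟩⟩,
      f.isoToSubgraph.trans (Classical.choice ⟨f.isoToSubgraph⟩ : H ≃g f.toSubgraph.coe).symm), ?_⟩
    apply SimpleGraph.Copy.ext
    intro x
    rw [mkCopy_apply]
    simp only [RelIso.trans_apply, RelIso.apply_symm_apply]
    rfl

theorem lcc_eq {V W : Type*} [Fintype V] [Fintype W] (G : SimpleGraph V) (H : SimpleGraph W) :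
    G.labelledCopyCount H = Nat.card (SimpleGraph.Copy H G) := by
  classical
  rw [SimpleGraph.labelledCopyCount, ← Nat.card_eq_fintype_card]

theorem copyCount_mul [Fintype V] [Fintype W] :
    G.labelledCopyCount H = G.copyCount H * Nat.card (H ≃g H) := by
  classical
  have h := card_copies (G := G) (H := H)
  rw [SimpleGraph.labelledCopyCount, SimpleGraph.copyCount]
  rw [← Nat.card_eq_fintype_card, h]
  congr 1
  rw [Nat.card_eq_fintype_card, Fintype.card_subtype]

theorem aut_pos [Finite W] : 0 < Nat.card (H ≃g H) := by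
  classical
  have : Nonempty (H ≃g H) := ⟨SimpleGraph.Iso.refl⟩
  have : Finite (H ≃g H) := by
    apply Finite.of_injective (fun e : H ≃g H => (e : W → W))
    intro a b hab
    exact RelIso.ext (fun x => congrFun hab x)
  exact Nat.card_pos

end copies

/-- pairs `(i, j)`, `i < j`, that are edges of `H`. -/
noncomputable def pairs {k : ℕ} (H : SimpleGraph (Fin k)) : Finset (Fin k × Fin k) := by
  classical exact Finset.univ.filter (fun e : Fin k × Fin k => e.1 < e.2 ∧ H.Adj e.1 e.2)

theorem mem_pairs {k : ℕ} (H : SimpleGraph (Fin k)) (e : Fin k × Fin k) :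
    e ∈ pairs H ↔ e.1 < e.2 ∧ H.Adj e.1 e.2 := by
  classical
  unfold pairs
  simp

/-- adjacency indicator -/
noncomputable def ind {V : Type*} (G : SimpleGraph V) (u v : V) : ℝ := by
  classical exact if G.Adj u v then 1 else 0

theorem ind_pos {V : Type*} {G : SimpleGraph V} {u v : V} (h : G.Adj u v) : ind G u v = 1 := by
  unfold ind; simp [h]

theorem ind_neg {V : Type*} {G : SimpleGraph V} {u v : V} (h : ¬ G.Adj u v) : ind G u v = 0 := by
  unfold ind; simp [h]

theorem ind_zero_or_one {V : Type*} (G : SimpleGraph V) (u v : V) :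
    ind G u v = 0 ∨ ind G u v = 1 := by
  by_cases h : G.Adj u v
  · right; exact ind_pos h
  · left; exact ind_neg h

theorem ind_compl {V : Type*} (G : SimpleGraph V) {u v : V} (h : u ≠ v) :
    ind Gᶜ u v = 1 - ind G u v := by
  by_cases h2 : G.Adj u v
  · rw [ind_pos h2, ind_neg (by simp [h2])]; ring
  · rw [ind_neg h2, ind_pos (by simp [h2, h])]; ring

theorem prod_ind {k : ℕ} {V : Type*} (H : SimpleGraph (Fin k)) (G : SimpleGraph V)
    (φ : Fin k → V) [Decidable (∀ i j, H.Adj i j → G.Adj (φ i) (φ j))] :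
    ∏ e ∈ pairs H, ind G (φ e.1) (φ e.2) = if ∀ i j, H.Adj i j → G.Adj (φ i) (φ j) then 1 else 0 := by
  split_ifs with h
  · apply Finset.prod_eq_one
    intro e he
    rw [mem_pairs] at he
    exact ind_pos (h _ _ he.2)
  · push Not at h
    obtain ⟨i, j, hij, hnot⟩ := h
    rcases lt_or_gt_of_ne hij.ne with hlt | hgt
    · exact Finset.prod_eq_zero (i := (i, j)) (by rw [mem_pairs]; exact ⟨hlt, hij⟩) (ind_neg hnot)
    · exact Finset.prod_eq_zero (i := (j, i)) (by rw [mem_pairs]; exact ⟨hgt, hij.symm⟩)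
        (ind_neg (fun h => hnot h.symm))

theorem labelled_eq {k : ℕ} {V : Type*} [Fintype V] [DecidableEq V] (H : SimpleGraph (Fin k))
    (G : SimpleGraph V) (T : Finset V) :
    (((G.induce (T : Set V)).labelledCopyCount H : ℕ) : ℝ)
      = ∑ φ : Fin k → V with Function.Injective φ,
        (∏ e ∈ pairs H, ind G (φ e.1) (φ e.2)) * ∏ i, (if φ i ∈ T then (1 : ℝ) else 0) := by
  classical
  have h1 : ∀ φ : Fin k → V, (∏ e ∈ pairs H, ind G (φ e.1) (φ e.2)) *
      ∏ i, (if φ i ∈ T then (1 : ℝ) else 0)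
      = if (∀ i j, H.Adj i j → G.Adj (φ i) (φ j)) ∧ (∀ i, φ i ∈ T) then 1 else 0 := by
    intro φ
    rw [prod_ind H G φ]
    by_cases hT : ∀ i, φ i ∈ T
    · rw [Finset.prod_eq_one (fun i _ => if_pos (hT i))]
      simp [hT]
    · have hT' := hT
      push Not at hT'
      obtain ⟨i, hi⟩ := hT'
      rw [Finset.prod_eq_zero (Finset.mem_univ i) (if_neg hi), mul_zero]
      symm
      exact if_neg (fun h => hT h.2)
  have key : Nat.card (SimpleGraph.Copy H (G.induce (T : Set V)))
      = Nat.card {φ : Fin k → V // Function.Injective φ ∧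
        ((∀ i j, H.Adj i j → G.Adj (φ i) (φ j)) ∧ (∀ i, φ i ∈ T))} := by
    apply Nat.card_congr
    exact
      { toFun := fun f => ⟨fun i => (f i : V),
          fun a b hab => f.injective (Subtype.ext hab),
          fun i j hij => f.toHom.map_adj hij, fun i => (f i).2⟩
        invFun := fun φ => ⟨⟨fun i => ⟨φ.1 i, φ.2.2.2 i⟩, fun {i j} hij => φ.2.2.1 i j hij⟩,
          fun a b hab => φ.2.1 (congrArg Subtype.val hab)⟩
        left_inv := fun f => rfl
        right_inv := fun φ => rfl }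
  have key2 : Nat.card {φ : Fin k → V // Function.Injective φ ∧
        ((∀ i j, H.Adj i j → G.Adj (φ i) (φ j)) ∧ (∀ i, φ i ∈ T))}
      = (Finset.univ.filter (fun φ : Fin k → V => Function.Injective φ ∧
        ((∀ i j, H.Adj i j → G.Adj (φ i) (φ j)) ∧ (∀ i, φ i ∈ T)))).card := by
    rw [Nat.card_eq_fintype_card, Fintype.card_subtype]
  have key3 : (G.induce (T : Set V)).labelledCopyCount H
      = Nat.card (SimpleGraph.Copy H (G.induce (T : Set V))) := by
    exact lcc_eq _ _
  rw [Finset.sum_congr rfl (fun φ _ => h1 φ), ← Finset.sum_filter, Finset.filter_filter,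
    Finset.sum_const, nsmul_eq_mul, mul_one, key3, key, key2]


/-! ### Quasi-random subsets -/


/-- Ramsey-type lemma with few bad pairs. -/
theorem ramsey {α : Type*} [DecidableEq α] {q : ℕ} (hq : 0 < q) (bad : α → α → Prop)
    (hbs : ∀ u v, bad u v → bad v u) (color : α → α → Fin q)
    (hcs : ∀ u v, color u v = color v u) (D : ℕ) [DecidableRel bad] :
    ∀ (N : ℕ) (τ : Fin q → ℕ), ∑ i, τ i = N → ∀ X : Finset α, (D + 2) * (q + 1) ^ N ≤ X.card →
      (∀ v ∈ X, (X.filter (fun u => bad v u)).card ≤ D) →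
      ∃ i, ∃ T ⊆ X, T.card = τ i ∧ ∀ u ∈ T, ∀ v ∈ T, u ≠ v → ¬ bad u v ∧ color u v = i := by
  intro N
  induction N with
  | zero =>
    intro τ hτ X _ _
    have h0 : τ ⟨0, hq⟩ = 0 := by
      have := (Finset.sum_eq_zero_iff.mp hτ) ⟨0, hq⟩ (Finset.mem_univ _)
      exact this
    exact ⟨⟨0, hq⟩, ∅, Finset.empty_subset _, by simp [h0], by simp⟩
  | succ N ih =>
    intro τ hτ X hX hbad
    by_cases hz : ∃ i, τ i = 0
    · obtain ⟨i, hi⟩ := hz
      exact ⟨i, ∅, Finset.empty_subset _, by simp [hi], by simp⟩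
    · push Not at hz
      have hXpos : 0 < X.card := lt_of_lt_of_le (by positivity) hX
      obtain ⟨v, hv⟩ := Finset.card_pos.mp hXpos
      set X' : Finset α := (X.erase v).filter (fun u => ¬ bad v u) with hX'
      have hX'card : X.card ≤ X'.card + (D + 1) := by
        have h1 : ((X.erase v).filter (fun u => bad v u)).card + X'.card = (X.erase v).card := by
          rw [hX']; exact Finset.card_filter_add_card_filter_not (fun u => bad v u)
        have h2 : (X.erase v).card = X.card - 1 := Finset.card_erase_of_mem hv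
        have h3 : ((X.erase v).filter (fun u => bad v u)).card ≤ D :=
          le_trans (Finset.card_le_card (Finset.filter_subset_filter _ (Finset.erase_subset _ _)))
            (hbad v hv)
        omega
      -- a large colour class
      have hclass : ∃ i, (D + 2) * (q + 1) ^ N ≤ (X'.filter (fun u => color v u = i)).card := by
        by_contra hcon
        push Not at hcon
        have h1 : X'.card = ∑ i : Fin q, (X'.filter (fun u => color v u = i)).card :=
          Finset.card_eq_sum_card_fiberwise (fun u _ => Finset.mem_univ (color v u))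
        have h2 : ∑ i : Fin q, (X'.filter (fun u => color v u = i)).card
            ≤ ∑ i : Fin q, ((D + 2) * (q + 1) ^ N - 1) := by
          apply Finset.sum_le_sum
          intro i _
          have := hcon i
          omega
        rw [Finset.sum_const, Finset.card_univ, Fintype.card_fin, smul_eq_mul] at h2
        have h3 : (D + 2) * (q + 1) ^ (N + 1) = q * ((D + 2) * (q + 1) ^ N) + (D + 2) * (q + 1) ^ N := by
          ring
        have h4 : D + 2 ≤ (D + 2) * (q + 1) ^ N := Nat.le_mul_of_pos_right _ (by positivity)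
        have h5 : q * ((D + 2) * (q + 1) ^ N - 1) ≤ q * ((D + 2) * (q + 1) ^ N) :=
          Nat.mul_le_mul_left _ (Nat.sub_le _ _)
        omega
      obtain ⟨i, hi⟩ := hclass
      set Y : Finset α := X'.filter (fun u => color v u = i) with hY
      have hYX : Y ⊆ X := by
        intro u hu
        rw [hY, Finset.mem_filter, hX', Finset.mem_filter, Finset.mem_erase] at hu
        exact hu.1.1.2
      have hsum' : ∑ j, (Function.update τ i (τ i - 1)) j = N := by
        have h1 := Finset.add_sum_erase Finset.univ τ (Finset.mem_univ i)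
        have h2 := Finset.add_sum_erase Finset.univ (Function.update τ i (τ i - 1))
          (Finset.mem_univ i)
        rw [Function.update_self] at h2
        have h3 : ∑ x ∈ Finset.univ.erase i, Function.update τ i (τ i - 1) x
            = ∑ x ∈ Finset.univ.erase i, τ x := by
          apply Finset.sum_congr rfl
          intro x hx
          rw [Function.update_of_ne (Finset.ne_of_mem_erase hx)]
        rw [h3] at h2
        have h4 := hz i
        omega
      obtain ⟨j, T, hTY, hTcard, hT⟩ := ih (Function.update τ i (τ i - 1)) hsum' Y hi (by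
        intro u hu
        exact le_trans (Finset.card_le_card (Finset.filter_subset_filter _ hYX)) (hbad u (hYX hu)))
      by_cases hji : j = i
      · subst hji
        rw [Function.update_self] at hTcard
        have hvT : v ∉ T := by
          intro hvT
          have := hTY hvT
          rw [hY, Finset.mem_filter, hX', Finset.mem_filter, Finset.mem_erase] at this
          exact this.1.1.1 rfl
        refine ⟨j, insert v T, ?_, ?_, ?_⟩
        · intro u hu
          rcases Finset.mem_insert.mp hu with rfl | hu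
          · exact hv
          · exact hYX (hTY hu)
        · rw [Finset.card_insert_of_notMem hvT, hTcard]
          have := hz j
          omega
        · have hvu : ∀ u ∈ T, ¬ bad v u ∧ color v u = j := by
            intro u hu
            have := hTY hu
            rw [hY, Finset.mem_filter, hX', Finset.mem_filter, Finset.mem_erase] at this
            exact ⟨this.1.2, this.2⟩
          intro u hu w hw huw
          rcases Finset.mem_insert.mp hu with hu1 | hu1
          · rcases Finset.mem_insert.mp hw with hw1 | hw1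
            · exact absurd (hu1.trans hw1.symm) huw
            · rw [hu1]; exact hvu w hw1
          · rcases Finset.mem_insert.mp hw with hw1 | hw1
            · have := hvu u hu1
              rw [hw1]
              exact ⟨fun h => this.1 (hbs _ _ h), by rw [hcs]; exact this.2⟩
            · exact hT u hu1 w hw1 huw
      · rw [Function.update_of_ne hji] at hTcard
        exact ⟨j, T, hTY.trans hYX, hTcard, hT⟩


theorem sum_ind {V : Type*} [DecidableEq V] (G : SimpleGraph V) [DecidableRel G.Adj]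
    (A B : Finset V) : ∑ u ∈ A, ∑ v ∈ B, ind G u v = (G.edgeDensity A B : ℝ) * (A.card * B.card) := by
  have h1 : ∑ u ∈ A, ∑ v ∈ B, ind G u v = ((G.interedges A B).card : ℝ) := by
    rw [← Finset.sum_product', SimpleGraph.interedges_def, Finset.card_filter]
    push_cast
    apply Finset.sum_congr rfl
    intro p _
    unfold ind
    congr
  rw [h1, SimpleGraph.edgeDensity_def]
  push_cast
  rcases A.eq_empty_or_nonempty with hA | hA
  · subst hA; simp
  rcases B.eq_empty_or_nonempty with hB | hB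
  · subst hB; simp [SimpleGraph.interedges_def]
  have : (0 : ℝ) < A.card := by exact_mod_cast hA.card_pos
  have : (0 : ℝ) < B.card := by exact_mod_cast hB.card_pos
  field_simp

theorem abs_sum_le {V : Type*} (G : SimpleGraph V) (d : ℝ) (hd0 : 0 ≤ d) (hd1 : d ≤ 1)
    (A B : Finset V) : |∑ u ∈ A, ∑ v ∈ B, (ind G u v - d)| ≤ A.card * B.card := by
  calc |∑ u ∈ A, ∑ v ∈ B, (ind G u v - d)| ≤ ∑ u ∈ A, ∑ v ∈ B, (1 : ℝ) := by
        refine le_trans (Finset.abs_sum_le_sum_abs _ _) (Finset.sum_le_sum (fun u _ => ?_))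
        refine le_trans (Finset.abs_sum_le_sum_abs _ _) (Finset.sum_le_sum (fun v _ => ?_))
        unfold ind
        rw [abs_le]
        split_ifs <;> constructor <;> linarith
    _ = A.card * B.card := by simp

theorem uniform_pair {V : Type*} [DecidableEq V] (G : SimpleGraph V) [DecidableRel G.Adj]
    (ε₁ η d : ℝ) (hd0 : 0 ≤ d) (hd1 : d ≤ 1) (hε₁ : 0 < ε₁) (hη : 0 ≤ η) (P Q : Finset V)
    (hU : G.IsUniform ε₁ P Q) (hdens : |(G.edgeDensity P Q : ℝ) - d| ≤ η)
    (A B : Finset V) (hA : A ⊆ P) (hB : B ⊆ Q) :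
    |∑ u ∈ A, ∑ v ∈ B, (ind G u v - d)| ≤ (ε₁ + η) * (P.card * Q.card) := by
  have hAP : (A.card : ℝ) ≤ P.card := by exact_mod_cast Finset.card_le_card hA
  have hBQ : (B.card : ℝ) ≤ Q.card := by exact_mod_cast Finset.card_le_card hB
  have hA0 : (0 : ℝ) ≤ A.card := by positivity
  have hB0 : (0 : ℝ) ≤ B.card := by positivity
  have hP0 : (0 : ℝ) ≤ P.card := by positivity
  have hQ0 : (0 : ℝ) ≤ Q.card := by positivity
  by_cases h1 : (P.card : ℝ) * ε₁ ≤ A.card
  · by_cases h2 : (Q.card : ℝ) * ε₁ ≤ B.card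
    · have h3 := hU hA hB h1 h2
      have h4 : ∑ u ∈ A, ∑ v ∈ B, (ind G u v - d)
          = ((G.edgeDensity A B : ℝ) - d) * (A.card * B.card) := by
        simp only [Finset.sum_sub_distrib]
        rw [sum_ind]
        simp
        ring
      rw [h4, abs_mul, abs_of_nonneg (mul_nonneg hA0 hB0)]
      have h5 : |(G.edgeDensity A B : ℝ) - d| ≤ ε₁ + η := by
        calc |(G.edgeDensity A B : ℝ) - d|
            = |((G.edgeDensity A B : ℝ) - (G.edgeDensity P Q : ℝ))
              + ((G.edgeDensity P Q : ℝ) - d)| := by ring_nf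
          _ ≤ |(G.edgeDensity A B : ℝ) - (G.edgeDensity P Q : ℝ)|
              + |(G.edgeDensity P Q : ℝ) - d| := abs_add_le _ _
          _ ≤ ε₁ + η := add_le_add h3.le hdens
      calc |(G.edgeDensity A B : ℝ) - d| * (A.card * B.card)
          ≤ (ε₁ + η) * (A.card * B.card) :=
            mul_le_mul_of_nonneg_right h5 (mul_nonneg hA0 hB0)
        _ ≤ (ε₁ + η) * (P.card * Q.card) := by
            apply mul_le_mul_of_nonneg_left _ (by linarith)
            exact mul_le_mul hAP hBQ hB0 hP0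
    · push Not at h2
      refine le_trans (abs_sum_le G d hd0 hd1 A B) ?_
      calc (A.card : ℝ) * B.card ≤ P.card * (Q.card * ε₁) := mul_le_mul hAP h2.le hB0 hP0
        _ ≤ (ε₁ + η) * (P.card * Q.card) := by nlinarith [mul_nonneg hP0 hQ0]
  · push Not at h1
    refine le_trans (abs_sum_le G d hd0 hd1 A B) ?_
    calc (A.card : ℝ) * B.card ≤ (P.card * ε₁) * Q.card :=
          mul_le_mul h1.le hBQ hB0 (by positivity)
      _ ≤ (ε₁ + η) * (P.card * Q.card) := by nlinarith [mul_nonneg hP0 hQ0]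

/-- Gluing pairwise uniform parts of comparable sizes and equal densities. -/
theorem assemble {V : Type*} [DecidableEq V] (G : SimpleGraph V) [DecidableRel G.Adj]
    (ε ε₁ d : ℝ) (hε : 0 < ε) (hε₁pos : 0 < ε₁) (hε₁a : ε₁ ≤ ε / 4) (hd0 : 0 ≤ d) (hd1 : d ≤ 1)
    (T : Finset (Finset V)) (hdisj : ∀ A ∈ T, ∀ B ∈ T, A ≠ B → Disjoint A B)
    (hsize2 : ∀ A ∈ T, ∀ B ∈ T, (A.card : ℝ) ≤ 2 * B.card) (ht8 : 8 / ε ≤ (T.card : ℝ))
    (hU : ∀ A ∈ T, ∀ B ∈ T, A ≠ B → G.IsUniform ε₁ A B)
    (hdens : ∀ A ∈ T, ∀ B ∈ T, A ≠ B → |(G.edgeDensity A B : ℝ) - d| ≤ ε / 4)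
    (A B : Finset V) (hA : A ⊆ T.biUnion id) (hB : B ⊆ T.biUnion id) :
    |∑ u ∈ A, ∑ v ∈ B, (ind G u v - d)| ≤ ε * ((T.biUnion id).card : ℝ) ^ 2 := by
  have hScard : (T.biUnion id).card = ∑ A ∈ T, A.card := by
    have hdisj' : ∀ A ∈ T, ∀ B ∈ T, A ≠ B → Disjoint (id A) (id B) :=
      fun A hA B hB hAB => hdisj A hA B hB hAB
    rw [Finset.card_biUnion hdisj']; rfl
  have hScardR : ((T.biUnion id).card : ℝ) = ∑ A ∈ T, (A.card : ℝ) := by
    rw [hScard]; push_cast; rfl
  have hsplit : ∀ A ⊆ T.biUnion id, A = T.biUnion (fun P₁ => A ∩ P₁) := by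
    intro A hA
    ext x
    rw [Finset.mem_biUnion]
    constructor
    · intro hx
      have := hA hx
      rw [Finset.mem_biUnion] at this
      obtain ⟨P₁, h1, h2⟩ := this
      exact ⟨P₁, h1, Finset.mem_inter.mpr ⟨hx, h2⟩⟩
    · rintro ⟨P₁, _, h2⟩; exact (Finset.mem_inter.mp h2).1
  have hdA : ∀ A : Finset V, (T : Set (Finset V)).PairwiseDisjoint (fun P₁ => A ∩ P₁) := by
    intro A P₁ h1 P₂ h2 hne
    exact (hdisj P₁ h1 P₂ h2 hne).mono Finset.inter_subset_right Finset.inter_subset_right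
  have hdecomp : ∑ u ∈ A, ∑ v ∈ B, (ind G u v - d)
      = ∑ P₁ ∈ T, ∑ P₂ ∈ T, ∑ u ∈ A ∩ P₁, ∑ v ∈ B ∩ P₂, (ind G u v - d) := by
    conv_lhs => rw [hsplit A hA, Finset.sum_biUnion (hdA A)]
    apply Finset.sum_congr rfl
    intro P₁ _
    rw [Finset.sum_comm]
    conv_lhs => rw [hsplit B hB, Finset.sum_biUnion (hdA B)]
    apply Finset.sum_congr rfl
    intro P₂ _
    rw [Finset.sum_comm]
  have hterm : ∀ P₁ ∈ T, ∀ P₂ ∈ T, |∑ u ∈ A ∩ P₁, ∑ v ∈ B ∩ P₂, (ind G u v - d)|
      ≤ ε / 2 * (P₁.card * P₂.card) + (if P₁ = P₂ then (P₁.card : ℝ) * P₂.card else 0) := by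
    intro P₁ h1 P₂ h2
    by_cases hne : P₁ = P₂
    · subst hne
      rw [if_pos rfl]
      have h3 := abs_sum_le G d hd0 hd1 (A ∩ P₁) (B ∩ P₁)
      have h4 : ((A ∩ P₁).card : ℝ) ≤ P₁.card := by
        exact_mod_cast Finset.card_le_card Finset.inter_subset_right
      have h5 : ((B ∩ P₁).card : ℝ) ≤ P₁.card := by
        exact_mod_cast Finset.card_le_card Finset.inter_subset_right
      have h6 : ((A ∩ P₁).card : ℝ) * ((B ∩ P₁).card : ℝ) ≤ P₁.card * P₁.card :=
        mul_le_mul h4 h5 (Nat.cast_nonneg _) (Nat.cast_nonneg _)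
      have h7 : 0 ≤ ε / 2 * ((P₁.card : ℝ) * P₁.card) :=
        mul_nonneg (by linarith) (mul_nonneg (Nat.cast_nonneg _) (Nat.cast_nonneg _))
      linarith
    · rw [if_neg hne, add_zero]
      refine le_trans (uniform_pair G ε₁ (ε / 4) d hd0 hd1 hε₁pos (by linarith) P₁ P₂
        (hU P₁ h1 P₂ h2 hne)
        (hdens P₁ h1 P₂ h2 hne) (A ∩ P₁) (B ∩ P₂) Finset.inter_subset_right
        Finset.inter_subset_right) ?_
      apply mul_le_mul_of_nonneg_right _ (mul_nonneg (Nat.cast_nonneg _) (Nat.cast_nonneg _))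
      linarith
  have hdiag : ∀ P₁ ∈ T, (P₁.card : ℝ) ≤ ε / 4 * ((T.biUnion id).card : ℝ) := by
    intro P₁ h1
    have h2 : (T.card : ℝ) * P₁.card ≤ 2 * ((T.biUnion id).card : ℝ) := by
      calc (T.card : ℝ) * P₁.card = ∑ P₂ ∈ T, (P₁.card : ℝ) := by
            rw [Finset.sum_const, nsmul_eq_mul]
        _ ≤ ∑ P₂ ∈ T, 2 * (P₂.card : ℝ) :=
            Finset.sum_le_sum (fun P₂ h2 => hsize2 P₁ h1 P₂ h2)
        _ = 2 * ((T.biUnion id).card : ℝ) := by rw [← Finset.mul_sum, ← hScardR]
    have h3 : 8 / ε * (P₁.card : ℝ) ≤ 2 * ((T.biUnion id).card : ℝ) :=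
      le_trans (mul_le_mul_of_nonneg_right ht8 (Nat.cast_nonneg _)) h2
    have h4 : 8 / ε * (P₁.card : ℝ) = 8 * P₁.card / ε := by ring
    rw [h4, div_le_iff₀ hε] at h3
    linarith
  rw [hdecomp]
  calc |∑ P₁ ∈ T, ∑ P₂ ∈ T, ∑ u ∈ A ∩ P₁, ∑ v ∈ B ∩ P₂, (ind G u v - d)|
      ≤ ∑ P₁ ∈ T, ∑ P₂ ∈ T, (ε / 2 * ((P₁.card : ℝ) * P₂.card)
        + (if P₁ = P₂ then (P₁.card : ℝ) * P₂.card else 0)) := by
        refine le_trans (Finset.abs_sum_le_sum_abs _ _) (Finset.sum_le_sum (fun P₁ h1 => ?_))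
        exact le_trans (Finset.abs_sum_le_sum_abs _ _)
          (Finset.sum_le_sum (fun P₂ h2 => hterm P₁ h1 P₂ h2))
    _ = ε / 2 * ((T.biUnion id).card : ℝ) ^ 2 + ∑ P₁ ∈ T, (P₁.card : ℝ) * P₁.card := by
        simp only [Finset.sum_add_distrib]
        congr 1
        · rw [hScardR, sq, Finset.sum_mul_sum, Finset.mul_sum]
          apply Finset.sum_congr rfl
          intro P₁ _
          rw [Finset.mul_sum]
        · apply Finset.sum_congr rfl
          intro P₁ h1
          rw [Finset.sum_ite_eq T P₁ (fun P₂ => (P₁.card : ℝ) * P₂.card), if_pos h1]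
    _ ≤ ε / 2 * ((T.biUnion id).card : ℝ) ^ 2
        + ∑ P₁ ∈ T, (P₁.card : ℝ) * (ε / 4 * ((T.biUnion id).card : ℝ)) := by
        apply add_le_add le_rfl
        apply Finset.sum_le_sum
        intro P₁ h1
        exact mul_le_mul_of_nonneg_left (hdiag P₁ h1) (Nat.cast_nonneg _)
    _ = ε / 2 * ((T.biUnion id).card : ℝ) ^ 2 + ε / 4 * ((T.biUnion id).card : ℝ) ^ 2 := by
        rw [← Finset.sum_mul, ← hScardR]; ring
    _ ≤ ε * ((T.biUnion id).card : ℝ) ^ 2 := by
        have : 0 ≤ ε * ((T.biUnion id).card : ℝ) ^ 2 := mul_nonneg hε.le (sq_nonneg _)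
        linarith

/-- Every large graph has a quasi-random subset of positive density. -/
theorem quasirandom_subset (ε : ℝ) (hε : 0 < ε) : ∃ c : ℝ, 0 < c ∧ ∃ n₀ : ℕ,
    ∀ (V : Type) [Fintype V] [DecidableEq V] (G : SimpleGraph V), n₀ ≤ Fintype.card V →
      ∃ S : Finset V, c * Fintype.card V ≤ S.card ∧ ∃ d : ℝ, 0 ≤ d ∧ d ≤ 1 ∧
        ∀ A ⊆ S, ∀ B ⊆ S, |∑ u ∈ A, ∑ v ∈ B, (ind G u v - d)| ≤ ε * (S.card : ℝ) ^ 2 := by
  classical
  set t : ℕ := ⌈8 / ε⌉₊ with ht
  set q' : ℕ := ⌈4 / ε⌉₊ with hq'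
  have ht8 : 8 / ε ≤ t := Nat.le_ceil _
  have hq4 : 4 / ε ≤ q' := Nat.le_ceil _
  have htpos : 0 < t := Nat.ceil_pos.mpr (by positivity)
  have hq'pos : 0 < q' := Nat.ceil_pos.mpr (by positivity)
  set q : ℕ := q' + 1 with hq
  set K : ℕ := (q + 1) ^ (q * t) with hK
  have hKpos : 0 < K := by positivity
  set ε₁ : ℝ := min (ε / 4) (1 / (8 * K)) with hε₁
  have hε₁pos : 0 < ε₁ := lt_min (by positivity) (by positivity)
  have hε₁a : ε₁ ≤ ε / 4 := min_le_left _ _
  have hε₁b : ε₁ ≤ 1 / (8 * K) := min_le_right _ _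
  set l : ℕ := 8 * K with hl
  set M : ℕ := SzemerediRegularity.bound ε₁ l with hM
  have hMpos : 0 < M := SzemerediRegularity.bound_pos _ _
  have hlM : l ≤ M := SzemerediRegularity.le_bound _ _
  refine ⟨1 / (2 * M), by positivity, M, ?_⟩
  intro V _ _ G hn
  obtain ⟨P, hPeq, hPl, hPM, hPU⟩ := szemeredi_regularity (G := G) hε₁pos (le_trans hlM hn)
  set m : ℕ := P.parts.card with hm
  have hmpos : 0 < m := lt_of_lt_of_le (by omega) hPl
  set n : ℕ := Fintype.card V with hn'
  have hmn : m ≤ n := le_trans hPM hn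
  have hmR : (0 : ℝ) < m := by exact_mod_cast hmpos
  -- sizes of the parts
  have hsize : ∀ A ∈ P.parts, n / m ≤ A.card ∧ A.card ≤ n / m + 1 := by
    intro A hA
    have h1 := hPeq.average_le_card_part hA
    have h2 := hPeq.card_part_le_average_add_one hA
    rw [Finset.card_univ] at h1 h2
    exact ⟨h1, h2⟩
  have hnm1 : 1 ≤ n / m := (Nat.one_le_div_iff hmpos).mpr hmn
  have hsize2 : ∀ A ∈ P.parts, ∀ B ∈ P.parts, (A.card : ℝ) ≤ 2 * B.card := by
    intro A hA B hB
    have h1 := hsize A hA; have h2 := hsize B hB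
    have : A.card ≤ 2 * B.card := by omega
    exact_mod_cast this
  -- bad pairs
  set bad : Finset V → Finset V → Prop := fun A B => A ≠ B ∧ ¬ G.IsUniform ε₁ A B with hbad
  have hbs : ∀ A B, bad A B → bad B A := by
    intro A B h
    exact ⟨h.1.symm, fun h2 => h.2 h2.symm⟩
  set D : ℕ := ⌊2 * ε₁ * m⌋₊ with hD
  have hDle : (D : ℝ) ≤ 2 * ε₁ * m := Nat.floor_le (by positivity)
  set X : Finset (Finset V) := P.parts.filter
    (fun A => ((P.parts.filter (fun B => bad A B)).card : ℝ) ≤ 2 * ε₁ * m) with hX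
  have hXlarge : (m : ℝ) / 2 ≤ X.card := by
    set Xc : Finset (Finset V) := P.parts.filter
      (fun A => ¬ ((P.parts.filter (fun B => bad A B)).card : ℝ) ≤ 2 * ε₁ * m) with hXc
    have h1 : X.card + Xc.card = m := by
      rw [hX, hXc]; exact Finset.card_filter_add_card_filter_not _
    have h2 : (Xc.card : ℝ) * (2 * ε₁ * m) ≤ ((P.nonUniforms G ε₁).card : ℝ) := by
      have h3 : (P.nonUniforms G ε₁).card
          = ∑ A ∈ P.parts, (P.parts.filter (fun B => bad A B)).card := by
        have h3a : P.nonUniforms G ε₁ = (P.parts ×ˢ P.parts).filter (fun p => bad p.1 p.2) := by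
          ext p
          obtain ⟨A, B⟩ := p
          rw [Finpartition.mk_mem_nonUniforms, Finset.mem_filter, Finset.mem_product]
          simp only [hbad]
          tauto
        rw [h3a, Finset.card_filter]
        rw [Finset.sum_congr rfl (fun A _ => Finset.card_filter (fun B => bad A B) P.parts)]
        rw [← Finset.sum_product' P.parts P.parts (fun A B => if bad A B then 1 else 0)]
      have h4 : ((P.nonUniforms G ε₁).card : ℝ)
          = ∑ A ∈ P.parts, ((P.parts.filter (fun B => bad A B)).card : ℝ) := by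
        rw [h3]; push_cast; rfl
      rw [h4]
      calc (Xc.card : ℝ) * (2 * ε₁ * m) = ∑ A ∈ Xc, (2 * ε₁ * m) := by simp
        _ ≤ ∑ A ∈ Xc, ((P.parts.filter (fun B => bad A B)).card : ℝ) := by
            apply Finset.sum_le_sum
            intro A hA
            rw [hXc, Finset.mem_filter] at hA
            exact (not_le.mp hA.2).le
        _ ≤ ∑ A ∈ P.parts, ((P.parts.filter (fun B => bad A B)).card : ℝ) := by
            apply Finset.sum_le_sum_of_subset_of_nonneg (Finset.filter_subset _ _)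
            intro _ _ _; positivity
    have h5 : ((P.nonUniforms G ε₁).card : ℝ) ≤ (m * m) * ε₁ := by
      refine le_trans hPU ?_
      apply mul_le_mul_of_nonneg_right _ hε₁pos.le
      have : m * (m - 1) ≤ m * m := Nat.mul_le_mul_left _ (Nat.sub_le _ _)
      exact_mod_cast this
    have h6 : (Xc.card : ℝ) ≤ m / 2 := by
      have h7 : (Xc.card : ℝ) * (2 * ε₁ * m) ≤ (m / 2) * (2 * ε₁ * m) := by
        calc (Xc.card : ℝ) * (2 * ε₁ * m) ≤ (m * m) * ε₁ := le_trans h2 h5
          _ = (m / 2) * (2 * ε₁ * m) := by ring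
      exact le_of_mul_le_mul_right h7 (by positivity)
    have h8 : (X.card : ℝ) + Xc.card = m := by exact_mod_cast h1
    linarith
  have hXcard : (D + 2) * (q + 1) ^ (q * t) ≤ X.card := by
    have h1 : ((D : ℝ) + 2) * K ≤ X.card := by
      refine le_trans ?_ hXlarge
      have hKR : (0 : ℝ) < K := by exact_mod_cast hKpos
      have h2 : (D : ℝ) * K ≤ m / 4 := by
        calc (D : ℝ) * K ≤ (2 * ε₁ * m) * K := mul_le_mul_of_nonneg_right hDle hKR.le
          _ ≤ (2 * (1 / (8 * K)) * m) * K := by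
              apply mul_le_mul_of_nonneg_right _ hKR.le
              apply mul_le_mul_of_nonneg_right _ hmR.le
              linarith
          _ = m / 4 := by field_simp; norm_num
      have h3 : (8 * (K : ℝ)) ≤ m := by
        have : l ≤ m := hPl
        rw [hl] at this
        exact_mod_cast this
      linarith
    have h4 : (((D + 2) * K : ℕ) : ℝ) ≤ X.card := by push_cast; exact h1
    exact_mod_cast h4
  -- colours
  set color : Finset V → Finset V → Fin q := fun A B =>
    ⟨⌊(G.edgeDensity A B : ℝ) * q'⌋₊, by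
      have h1 : (G.edgeDensity A B : ℝ) ≤ 1 := by exact_mod_cast G.edgeDensity_le_one A B
      have h0 : (0 : ℝ) ≤ (G.edgeDensity A B : ℝ) := by exact_mod_cast G.edgeDensity_nonneg A B
      have h2 : ⌊(G.edgeDensity A B : ℝ) * q'⌋₊ ≤ q' := by
        apply Nat.floor_le_of_le
        have : (0 : ℝ) ≤ q' := by positivity
        nlinarith
      omega⟩ with hcolor
  have hcs : ∀ A B, color A B = color B A := by
    intro A B
    apply Fin.ext
    show ⌊(G.edgeDensity A B : ℝ) * q'⌋₊ = ⌊(G.edgeDensity B A : ℝ) * q'⌋₊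
    rw [G.edgeDensity_comm A B]
  obtain ⟨i, T, hTX, hTcard, hT⟩ := ramsey (q := q) (by omega) bad hbs color hcs D (q * t)
    (fun _ => t) (by simp) X hXcard (by
      intro A hA
      have h1 : (X.filter (fun B => bad A B)).card ≤ (P.parts.filter (fun B => bad A B)).card :=
        Finset.card_le_card (Finset.filter_subset_filter _ (Finset.filter_subset _ _))
      rw [hX, Finset.mem_filter] at hA
      exact le_trans h1 (Nat.le_floor hA.2))
  have hTP : T ⊆ P.parts := hTX.trans (Finset.filter_subset _ _)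
  have hTne : T.Nonempty := by rw [← Finset.card_pos, hTcard]; exact htpos
  have hq'R : (0 : ℝ) < q' := by exact_mod_cast hq'pos
  have hiq : ((i : ℕ) : ℝ) ≤ q' := by
    have h1 : (i : ℕ) < q := i.2
    have h2 : (i : ℕ) ≤ q' := by omega
    exact_mod_cast h2
  have hd1 : ((i : ℕ) : ℝ) / q' ≤ 1 := by
    rw [div_le_one hq'R]; exact hiq
  refine ⟨T.biUnion id, ?_, ((i : ℕ) : ℝ) / q', by positivity, hd1, ?_⟩
  · -- size of S
    obtain ⟨A, hA⟩ := hTne
    have h1 : (n / m : ℕ) ≤ (T.biUnion id).card :=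
      le_trans (hsize A (hTP hA)).1 (Finset.card_le_card (Finset.subset_biUnion_of_mem id hA))
    have h2 : (n : ℝ) ≤ 2 * m * (n / m : ℕ) := by
      have h3 : n < m * (n / m) + m := by
        have := Nat.div_add_mod n m
        have := Nat.mod_lt n hmpos
        omega
      have h4 : m * 1 ≤ m * (n / m) := Nat.mul_le_mul_left _ hnm1
      have h5 : n ≤ 2 * m * (n / m) := by nlinarith
      exact_mod_cast h5
    have h6 : (m : ℝ) ≤ M := by exact_mod_cast hPM
    have h7 : (0 : ℝ) < M := by exact_mod_cast hMpos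
    have h8 : ((n / m : ℕ) : ℝ) ≤ (T.biUnion id).card := by exact_mod_cast h1
    rw [div_mul_eq_mul_div, one_mul, div_le_iff₀ (by positivity)]
    have h9 : (0 : ℝ) ≤ (T.biUnion id).card := Nat.cast_nonneg _
    calc (n : ℝ) ≤ 2 * m * (n / m : ℕ) := h2
      _ ≤ 2 * m * (T.biUnion id).card := mul_le_mul_of_nonneg_left h8 (by linarith)
      _ ≤ 2 * M * (T.biUnion id).card :=
          mul_le_mul_of_nonneg_right (by linarith) h9
      _ = (T.biUnion id).card * (2 * M) := by ring
  · intro A hA B hB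
    refine assemble G ε ε₁ _ hε hε₁pos hε₁a (by positivity) hd1 T
      (fun A hA B hB hAB => P.disjoint (hTP hA) (hTP hB) hAB)
      (fun A hA B hB => hsize2 A (hTP hA) B (hTP hB)) (by rw [hTcard]; exact ht8) ?_ ?_ A B hA hB
    · intro P₁ h1 P₂ h2 hne
      by_contra hcon
      exact (hT P₁ h1 P₂ h2 hne).1 ⟨hne, hcon⟩
    · intro P₁ h1 P₂ h2 hne
      have hc := (hT P₁ h1 P₂ h2 hne).2
      have hc2 : ⌊(G.edgeDensity P₁ P₂ : ℝ) * q'⌋₊ = (i : ℕ) := congrArg Fin.val hc
      have h0 : (0 : ℝ) ≤ (G.edgeDensity P₁ P₂ : ℝ) := by exact_mod_cast G.edgeDensity_nonneg P₁ P₂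
      have h3 : ((i : ℕ) : ℝ) ≤ (G.edgeDensity P₁ P₂ : ℝ) * q' := by
        rw [← hc2]; exact Nat.floor_le (by positivity)
      have h4 : (G.edgeDensity P₁ P₂ : ℝ) * q' < ((i : ℕ) : ℝ) + 1 := by
        rw [← hc2]; exact Nat.lt_floor_add_one _
      have h5 : ((i : ℕ) : ℝ) / q' ≤ (G.edgeDensity P₁ P₂ : ℝ) := by
        rw [div_le_iff₀ hq'R]; exact h3
      have h6 : (G.edgeDensity P₁ P₂ : ℝ) ≤ ((i : ℕ) : ℝ) / q' + 1 / q' := by
        rw [← add_div, le_div_iff₀ hq'R]; exact h4.le
      have h7 : 1 / (q' : ℝ) ≤ ε / 4 := by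
        rw [div_le_div_iff₀ hq'R (by norm_num)]
        have := (div_le_iff₀ hε).mp hq4
        linarith
      rw [abs_le]; constructor <;> linarith


/-! ### Sylvester graphs -/



/-- sign kernel of the Sylvester matrix -/
noncomputable def syl {m : ℕ} (x y : Fin m → Bool) : ℝ :=
  ∏ i, (if (x i && y i) = true then (-1 : ℝ) else 1)

theorem syl_comm {m : ℕ} (x y : Fin m → Bool) : syl x y = syl y x := by
  unfold syl
  apply Finset.prod_congr rfl
  intro i _
  rw [Bool.and_comm]

theorem syl_pm {m : ℕ} (x y : Fin m → Bool) : syl x y = 1 ∨ syl x y = -1 := by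
  unfold syl
  induction (Finset.univ : Finset (Fin m)) using Finset.induction_on with
  | empty => left; simp
  | insert i s hi ih =>
    rw [Finset.prod_insert hi]
    rcases ih with h | h <;> rw [h] <;> split_ifs <;> simp

theorem syl_orth {m : ℕ} (x x' : Fin m → Bool) :
    ∑ y : Fin m → Bool, syl x y * syl x' y = if x = x' then (2 : ℝ) ^ m else 0 := by
  have h1 : ∀ y : Fin m → Bool, syl x y * syl x' y
      = ∏ i, ((if (x i && y i) = true then (-1 : ℝ) else 1)
        * (if (x' i && y i) = true then (-1 : ℝ) else 1)) := by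
    intro y
    unfold syl
    rw [Finset.prod_mul_distrib]
  rw [Finset.sum_congr rfl (fun y _ => h1 y)]
  have h2 := Finset.prod_univ_sum (fun _ : Fin m => (Finset.univ : Finset Bool))
    (fun i b => ((if (x i && b) = true then (-1 : ℝ) else 1)
        * (if (x' i && b) = true then (-1 : ℝ) else 1)))
  rw [Fintype.piFinset_univ] at h2
  rw [← h2]
  have h3 : ∀ i : Fin m, ∑ b : Bool, ((if (x i && b) = true then (-1 : ℝ) else 1)
        * (if (x' i && b) = true then (-1 : ℝ) else 1)) = if x i = x' i then 2 else 0 := by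
    intro i
    rw [Fintype.sum_bool]
    cases x i <;> cases x' i <;> norm_num
  rw [Finset.prod_congr rfl (fun i _ => h3 i)]
  by_cases hx : x = x'
  · subst hx
    simp
  · rw [if_neg hx]
    have : ∃ i, x i ≠ x' i := by
      by_contra hcon
      push Not at hcon
      exact hx (funext hcon)
    obtain ⟨i, hi⟩ := this
    exact Finset.prod_eq_zero (Finset.mem_univ i) (if_neg hi)

theorem lindsey {m : ℕ} (A B : Finset (Fin m → Bool)) :
    |∑ x ∈ A, ∑ y ∈ B, syl x y| ≤ Real.sqrt (B.card * ((2 : ℝ) ^ m * A.card)) := by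
  apply Real.le_sqrt_of_sq_le
  rw [sq_abs, Finset.sum_comm]
  have h1 : (∑ y ∈ B, ∑ x ∈ A, syl x y) ^ 2 ≤ B.card * ∑ y ∈ B, (∑ x ∈ A, syl x y) ^ 2 :=
    sq_sum_le_card_mul_sum_sq
  refine le_trans h1 ?_
  apply mul_le_mul_of_nonneg_left _ (Nat.cast_nonneg _)
  calc ∑ y ∈ B, (∑ x ∈ A, syl x y) ^ 2 ≤ ∑ y : Fin m → Bool, (∑ x ∈ A, syl x y) ^ 2 := by
        apply Finset.sum_le_sum_of_subset_of_nonneg (Finset.subset_univ _)
        intro _ _ _; exact sq_nonneg _
    _ = ∑ x ∈ A, ∑ x' ∈ A, ∑ y : Fin m → Bool, syl x y * syl x' y := by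
        simp only [sq, Finset.sum_mul_sum]
        rw [Finset.sum_comm]
        apply Finset.sum_congr rfl
        intro x _
        rw [Finset.sum_comm]
    _ = ∑ x ∈ A, (2 : ℝ) ^ m := by
        apply Finset.sum_congr rfl
        intro x hx
        rw [Finset.sum_congr rfl (fun x' _ => syl_orth x x')]
        rw [Finset.sum_ite_eq A x (fun _ => (2 : ℝ) ^ m), if_pos hx]
    _ = (2 : ℝ) ^ m * A.card := by simp [mul_comm]

/-- A graph on `n` vertices with very small cut discrepancy. -/
theorem exists_graph (n : ℕ) (hn : 1 ≤ n) : ∃ G : SimpleGraph (Fin n),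
    ∀ A B : Finset (Fin n), |∑ u ∈ A, ∑ v ∈ B, (ind G u v - 1 / 2)| ≤ 2 * (n * Real.sqrt n) := by
  classical
  set m : ℕ := Nat.log 2 n + 1 with hm
  have h1 : n < 2 ^ m := Nat.lt_pow_succ_log_self (by norm_num) n
  have h2 : 2 ^ m ≤ 2 * n := by
    rw [hm, pow_succ]
    have := Nat.pow_log_le_self 2 (by omega : n ≠ 0)
    omega
  have h2R : (2 : ℝ) ^ m ≤ 2 * n := by exact_mod_cast h2
  have hcard : Fintype.card (Fin n) ≤ Fintype.card (Fin m → Bool) := by
    simp; omega
  obtain ⟨ι⟩ := Function.Embedding.nonempty_of_card_le hcard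
  set G : SimpleGraph (Fin n) :=
    { Adj := fun u v => u ≠ v ∧ syl (ι u) (ι v) = 1
      symm := ⟨fun u v h => ⟨h.1.symm, by rw [syl_comm]; exact h.2⟩⟩
      loopless := ⟨fun u h => h.1 rfl⟩ } with hG
  refine ⟨G, ?_⟩
  intro A B
  have hnR : (1 : ℝ) ≤ n := by exact_mod_cast hn
  have hind : ∀ u v : Fin n, ind G u v - 1 / 2
      = 1 / 2 * syl (ι u) (ι v) - (if u = v then (1 / 2 + 1 / 2 * syl (ι u) (ι v)) else 0) := by
    intro u v
    unfold ind
    by_cases huv : u = v
    · rw [if_neg (fun h : G.Adj u v => h.1 huv), if_pos huv]; ring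
    · rw [if_neg huv]
      rcases syl_pm (ι u) (ι v) with h | h
      · rw [if_pos (show G.Adj u v from ⟨huv, h⟩), h]; ring
      · have hna : ¬ G.Adj u v := by
          intro hadj
          have := hadj.2
          rw [h] at this
          norm_num at this
        rw [if_neg hna, h]; ring
  have hsum : ∑ u ∈ A, ∑ v ∈ B, (ind G u v - 1 / 2)
      = 1 / 2 * ∑ x ∈ A.map ι, ∑ y ∈ B.map ι, syl x y
        - ∑ u ∈ A, (if u ∈ B then (1 / 2 + 1 / 2 * syl (ι u) (ι u)) else 0) := by
    rw [Finset.sum_map, Finset.mul_sum, ← Finset.sum_sub_distrib]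
    apply Finset.sum_congr rfl
    intro u _
    rw [Finset.sum_congr rfl (fun v _ => hind u v), Finset.sum_sub_distrib, Finset.sum_map,
      Finset.mul_sum]
    congr 1
    rw [Finset.sum_ite_eq B u (fun v => (1 / 2 + 1 / 2 * syl (ι u) (ι v)))]
  rw [hsum]
  have hA : (A.card : ℝ) ≤ n := by
    have := Finset.card_le_univ A
    rw [Fintype.card_fin] at this
    exact_mod_cast this
  have hB : (B.card : ℝ) ≤ n := by
    have := Finset.card_le_univ B
    rw [Fintype.card_fin] at this
    exact_mod_cast this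
  have hA0 : (0 : ℝ) ≤ A.card := Nat.cast_nonneg _
  have hB0 : (0 : ℝ) ≤ B.card := Nat.cast_nonneg _
  have hlin := lindsey (A.map ι) (B.map ι)
  rw [Finset.card_map, Finset.card_map] at hlin
  have hs : Real.sqrt (B.card * ((2 : ℝ) ^ m * A.card)) ≤ 2 * (n * Real.sqrt n) := by
    have h3 : (B.card : ℝ) * ((2 : ℝ) ^ m * A.card) ≤ (2 * (n * Real.sqrt n)) ^ 2 := by
      have h4 : (2 * ((n : ℝ) * Real.sqrt n)) ^ 2 = 4 * n ^ 2 * n := by
        rw [mul_pow, mul_pow, Real.sq_sqrt (by linarith)]; ring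
      rw [h4]
      calc (B.card : ℝ) * ((2 : ℝ) ^ m * A.card) ≤ n * ((2 * n) * n) := by
            apply mul_le_mul hB _ (mul_nonneg (pow_nonneg (by norm_num) _) hA0) (by linarith)
            exact mul_le_mul h2R hA hA0 (by linarith)
        _ ≤ 4 * n ^ 2 * n := by nlinarith [pow_pos (by linarith : (0 : ℝ) < n) 3]
    calc Real.sqrt (B.card * ((2 : ℝ) ^ m * A.card)) ≤ Real.sqrt ((2 * (n * Real.sqrt n)) ^ 2) :=
          Real.sqrt_le_sqrt h3
      _ = 2 * (n * Real.sqrt n) := Real.sqrt_sq (mul_nonneg (by norm_num)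
          (mul_nonneg (by linarith) (Real.sqrt_nonneg _)))
  have hd : |∑ u ∈ A, (if u ∈ B then (1 / 2 + 1 / 2 * syl (ι u) (ι u)) else 0)| ≤ n := by
    calc _ ≤ ∑ u ∈ A, (1 : ℝ) := by
          refine le_trans (Finset.abs_sum_le_sum_abs _ _) (Finset.sum_le_sum (fun u _ => ?_))
          split_ifs
          · rcases syl_pm (ι u) (ι u) with h | h <;> rw [h] <;> norm_num
          · simp
      _ ≤ n := by simpa using hA
  have hsq1 : (1 : ℝ) ≤ Real.sqrt n := by
    rw [show (1 : ℝ) = Real.sqrt 1 by simp]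
    exact Real.sqrt_le_sqrt hnR
  have hn2 : (n : ℝ) ≤ n * Real.sqrt n := by nlinarith
  calc |1 / 2 * ∑ x ∈ A.map ι, ∑ y ∈ B.map ι, syl x y
        - ∑ u ∈ A, (if u ∈ B then (1 / 2 + 1 / 2 * syl (ι u) (ι u)) else 0)|
      ≤ |1 / 2 * ∑ x ∈ A.map ι, ∑ y ∈ B.map ι, syl x y|
        + |∑ u ∈ A, (if u ∈ B then (1 / 2 + 1 / 2 * syl (ι u) (ι u)) else 0)| := abs_sub _ _
    _ ≤ 1 / 2 * (2 * (n * Real.sqrt n)) + n := by
        rw [abs_mul, abs_of_pos (by norm_num : (0 : ℝ) < 1 / 2)]
        exact add_le_add (mul_le_mul_of_nonneg_left (le_trans hlin hs) (by norm_num)) hd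
    _ ≤ 2 * (n * Real.sqrt n) := by linarith


/-! ### Counting injective maps -/

theorem sum_inj_eq {k : ℕ} {V : Type*} [Fintype V] [DecidableEq V] (S : Finset V)
    (Y : (Fin k → V) → ℝ) :
    ∑ φ : Fin k → V with Function.Injective φ, Y φ * ∏ i, (if φ i ∈ S then (1 : ℝ) else 0)
      = ∑ φ ∈ (Fintype.piFinset (fun _ : Fin k => S)).filter (fun φ => Function.Injective φ),
        Y φ := by
  classical
  have h1 : ∀ φ : Fin k → V, Y φ * ∏ i, (if φ i ∈ S then (1 : ℝ) else 0)
      = if φ ∈ Fintype.piFinset (fun _ : Fin k => S) then Y φ else 0 := by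
    intro φ
    by_cases h : φ ∈ Fintype.piFinset (fun _ : Fin k => S)
    · rw [if_pos h]
      rw [Fintype.mem_piFinset] at h
      rw [Finset.prod_eq_one (fun i _ => if_pos (h i)), mul_one]
    · rw [if_neg h]
      rw [Fintype.mem_piFinset] at h
      push Not at h
      obtain ⟨i, hi⟩ := h
      rw [Finset.prod_eq_zero (Finset.mem_univ i) (if_neg hi), mul_zero]
  rw [Finset.sum_congr rfl (fun φ _ => h1 φ), ← Finset.sum_filter]
  apply Finset.sum_congr _ (fun _ _ => rfl)
  ext φ
  simp only [Finset.mem_filter, Finset.mem_univ, true_and]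
  tauto

theorem inj_count {k : ℕ} {V : Type*} [Fintype V] [DecidableEq V] (G : SimpleGraph V)
    (S : Finset V) (d Δ : ℝ) (hd0 : 0 ≤ d) (hd1 : d ≤ 1)
    (hcut : ∀ A ⊆ S, ∀ B ⊆ S, |∑ u ∈ A, ∑ v ∈ B, (ind G u v - d)| ≤ Δ)
    (sgn : Fin k × Fin k → Bool) (F : Finset (Fin k × Fin k)) (hF : ∀ e ∈ F, e.1 < e.2) :
    |∑ φ : Fin k → V with Function.Injective φ,
        (∏ e ∈ F, (if sgn e = true then ind G (φ e.1) (φ e.2) else 1 - ind G (φ e.1) (φ e.2)))
          * ∏ i, (if φ i ∈ S then (1 : ℝ) else 0)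
      - (∏ e ∈ F, (if sgn e = true then d else 1 - d)) * (S.card : ℝ) ^ k|
      ≤ (F.card : ℝ) * (Δ * (S.card : ℝ) ^ (k - 2)) + (k : ℝ) ^ 2 * (S.card : ℝ) ^ (k - 1) := by
  classical
  set w : Fin k × Fin k → V → V → ℝ := fun e u v =>
    if sgn e = true then ind G u v else 1 - ind G u v with hw
  set δ : Fin k × Fin k → ℝ := fun e => if sgn e = true then d else 1 - d with hδ
  have h01 : ∀ e u v, w e u v = 0 ∨ w e u v = 1 := by
    intro e u v
    simp only [hw]
    rcases ind_zero_or_one G u v with h | h <;> rw [h] <;> split_ifs <;> norm_num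
  have hcutw : ∀ e ∈ F, ∀ A ⊆ S, ∀ B ⊆ S, |∑ u ∈ A, ∑ v ∈ B, (w e u v - δ e)| ≤ Δ := by
    intro e _ A hA B hB
    simp only [hw, hδ]
    split_ifs with hs
    · exact hcut A hA B hB
    · have : ∑ u ∈ A, ∑ v ∈ B, (1 - ind G u v - (1 - d)) = - ∑ u ∈ A, ∑ v ∈ B, (ind G u v - d) := by
        rw [← Finset.sum_neg_distrib]
        apply Finset.sum_congr rfl
        intro u _
        rw [← Finset.sum_neg_distrib]
        apply Finset.sum_congr rfl
        intro v _
        ring
      rw [this, abs_neg]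
      exact hcut A hA B hB
  have hc := count S w h01 δ (by intro e; simp only [hδ]; split_ifs <;> linarith)
    (by intro e; simp only [hδ]; split_ifs <;> linarith) Δ F hF hcutw
  rw [sum_inj_eq S (fun φ => ∏ e ∈ F, w e (φ e.1) (φ e.2))]
  have hsplit := Finset.sum_filter_add_sum_filter_not
    (Fintype.piFinset (fun _ : Fin k => S)) (fun φ => Function.Injective φ)
    (fun φ => ∏ e ∈ F, w e (φ e.1) (φ e.2))
  have hnon : |∑ φ ∈ (Fintype.piFinset (fun _ : Fin k => S)).filter
      (fun φ => ¬ Function.Injective φ), ∏ e ∈ F, w e (φ e.1) (φ e.2)|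
      ≤ (k : ℝ) ^ 2 * (S.card : ℝ) ^ (k - 1) := by
    refine le_trans (Finset.abs_sum_le_sum_abs _ _) ?_
    calc _ ≤ ∑ φ ∈ (Fintype.piFinset (fun _ : Fin k => S)).filter
          (fun φ => ¬ Function.Injective φ), (1 : ℝ) := by
          apply Finset.sum_le_sum
          intro φ _
          rw [Finset.abs_prod]
          apply Finset.prod_le_one (fun _ _ => abs_nonneg _)
          intro e _
          rcases h01 e (φ e.1) (φ e.2) with h | h <;> rw [h] <;> norm_num
      _ = (((Fintype.piFinset (fun _ : Fin k => S)).filter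
          (fun φ => ¬ Function.Injective φ)).card : ℝ) := by simp
      _ ≤ _ := noninj S
  have heq : ∑ φ ∈ (Fintype.piFinset (fun _ : Fin k => S)).filter
      (fun φ => Function.Injective φ), ∏ e ∈ F, w e (φ e.1) (φ e.2)
      - (∏ e ∈ F, δ e) * (S.card : ℝ) ^ k
      = (∑ φ ∈ Fintype.piFinset (fun _ : Fin k => S), ∏ e ∈ F, w e (φ e.1) (φ e.2)
        - (∏ e ∈ F, δ e) * (S.card : ℝ) ^ k)
        - ∑ φ ∈ (Fintype.piFinset (fun _ : Fin k => S)).filter
          (fun φ => ¬ Function.Injective φ), ∏ e ∈ F, w e (φ e.1) (φ e.2) := by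
    rw [← hsplit]; ring
  rw [heq]
  refine le_trans (abs_sub _ _) ?_
  exact add_le_add hc hnon

/-- The signed count form. -/
noncomputable def gam {k : ℕ} {V : Type*} (H : SimpleGraph (Fin k)) (G : SimpleGraph V)
    (φ : Fin k → V) : ℝ :=
  ∏ e ∈ pairs H, ind G (φ e.1) (φ e.2) - ∏ e ∈ pairs H, ind Gᶜ (φ e.1) (φ e.2)

theorem gam_compl {k : ℕ} {V : Type*} (H : SimpleGraph (Fin k)) (G : SimpleGraph V)
    (φ : Fin k → V) : gam H Gᶜ φ = - gam H G φ := by
  unfold gam
  rw [compl_compl]; ring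

theorem prod_compl {k : ℕ} {V : Type*} (H : SimpleGraph (Fin k)) (G : SimpleGraph V)
    (φ : Fin k → V) (hφ : Function.Injective φ) :
    ∏ e ∈ pairs H, ind Gᶜ (φ e.1) (φ e.2) = ∏ e ∈ pairs H, (1 - ind G (φ e.1) (φ e.2)) := by
  apply Finset.prod_congr rfl
  intro e he
  rw [mem_pairs] at he
  exact ind_compl G (fun h => (ne_of_lt he.1) (hφ h))

/-- ordered version of a pair -/
def srt {k : ℕ} (i j : Fin k) : Fin k × Fin k := if i < j then (i, j) else (j, i)

theorem srt_lt {k : ℕ} {i j : Fin k} (h : i ≠ j) : (srt i j).1 < (srt i j).2 := by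
  unfold srt
  split_ifs with h1
  · exact h1
  · exact lt_of_le_of_ne (not_lt.mp h1) (Ne.symm h)

theorem ind_symm {V : Type*} (G : SimpleGraph V) (u v : V) : ind G u v = ind G v u := by
  by_cases h : G.Adj u v
  · rw [ind_pos h, ind_pos h.symm]
  · rw [ind_neg h, ind_neg (fun h2 => h h2.symm)]

theorem ind_srt {k : ℕ} {V : Type*} (G : SimpleGraph V) (φ : Fin k → V) (i j : Fin k) :
    ind G (φ (srt i j).1) (φ (srt i j).2) = ind G (φ i) (φ j) := by
  unfold srt
  split_ifs
  · rfl
  · exact ind_symm _ _ _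

theorem srt_mem {k : ℕ} (H : SimpleGraph (Fin k)) {i j : Fin k} (h : i ≠ j) :
    srt i j ∈ pairs H ↔ H.Adj i j := by
  rw [mem_pairs]
  unfold srt
  split_ifs with h1
  · simp [h1]
  · have h2 : j < i := lt_of_le_of_ne (not_lt.mp h1) (Ne.symm h)
    simp [h2, H.adj_comm]

theorem abs_ind_le {V : Type*} (G : SimpleGraph V) (u v : V) : |ind G u v| ≤ 1 := by
  rcases ind_zero_or_one G u v with h | h <;> rw [h] <;> norm_num

theorem lower_core (k : ℕ) (H : SimpleGraph (Fin k)) (hH : H ≠ ⊥) :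
    ∃ c₀ : ℝ, 0 < c₀ ∧ ∃ ε : ℝ, 0 < ε ∧ ∃ N₀ : ℕ, ∀ (V : Type) [Fintype V] [DecidableEq V]
      (G : SimpleGraph V) (S : Finset V) (d : ℝ), 1 / 2 ≤ d → d ≤ 1 →
      (∀ A ⊆ S, ∀ B ⊆ S, |∑ u ∈ A, ∑ v ∈ B, (ind G u v - d)| ≤ ε * (S.card : ℝ) ^ 2) →
      N₀ ≤ S.card → ∀ M : ℝ,
      (∀ T : Finset V, |∑ φ : Fin k → V with Function.Injective φ,
        gam H G φ * ∏ i, (if φ i ∈ T then (1 : ℝ) else 0)| ≤ M) →
      c₀ * (S.card : ℝ) ^ k ≤ M * Real.sqrt S.card := by
  classical
  obtain ⟨C, hC, hL1⟩ := L1bound k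
  -- an edge of H
  have hedge : ∃ i j : Fin k, H.Adj i j := by
    by_contra hcon
    push Not at hcon
    apply hH
    ext i j
    simp [hcon i j]
  obtain ⟨i₀, j₀, hij₀⟩ := hedge
  have hk2 : 2 ≤ k := by
    rcases i₀ with ⟨i, hi⟩; rcases j₀ with ⟨j, hj⟩
    have : i ≠ j := fun h => hij₀.ne (by subst h; rfl)
    omega
  set e : ℕ := (pairs H).card with he
  have hkR : (0 : ℝ) < k := by exact_mod_cast (by omega : 0 < k)
  have hp : (0 : ℝ) < (1 / 2) ^ e := by positivity
  set ε : ℝ := (1 / 2) ^ e / (8 * (k : ℝ) ^ 2 * (e + 1)) with hε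
  have hεpos : 0 < ε := by positivity
  obtain ⟨N₀, hN₀⟩ := exists_nat_ge (8 * (k : ℝ) ^ 4 / (1 / 2) ^ e)
  refine ⟨(1 / 2) ^ e / (2 * C), by positivity, ε, hεpos, N₀ + 1, ?_⟩
  intro V _ _ G S d hd0 hd1 hcut hS M hM
  set N : ℝ := (S.card : ℝ) with hN
  have hN1 : (N₀ : ℝ) + 1 ≤ N := by rw [hN]; exact_mod_cast hS
  have hNpos : 0 < N := by
    have : (0 : ℝ) ≤ N₀ := Nat.cast_nonneg _
    linarith
  have hmain := hL1 V (gam H G) M hM S (ind G) (abs_ind_le G)
  have hδN : ε * N ^ 2 * N ^ (k - 2) = ε * N ^ k := by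
    rw [mul_assoc, ← pow_add]; congr 2; omega
  have hN' : (k : ℝ) ^ 2 * N ^ (k - 1) ≤ (1 / 2) ^ e / (8 * (k : ℝ) ^ 2) * N ^ k := by
    have h1 : N ^ k = N * N ^ (k - 1) := by rw [← pow_succ']; congr 1; omega
    rw [h1]
    have h2 : (k : ℝ) ^ 2 ≤ (1 / 2) ^ e / (8 * (k : ℝ) ^ 2) * N := by
      have h3 : 8 * (k : ℝ) ^ 4 / (1 / 2) ^ e ≤ N := by linarith
      rw [div_le_iff₀ hp] at h3
      rw [div_mul_eq_mul_div, le_div_iff₀ (by positivity)]
      nlinarith
    calc (k : ℝ) ^ 2 * N ^ (k - 1) ≤ ((1 / 2) ^ e / (8 * (k : ℝ) ^ 2) * N) * N ^ (k - 1) :=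
          mul_le_mul_of_nonneg_right h2 (by positivity)
      _ = _ := by ring
  -- error term
  set err : ℝ := (1 / 2) ^ e / (8 * (k : ℝ) ^ 2) * N ^ k + (1 / 2) ^ e / (8 * (k : ℝ) ^ 2) * N ^ k
    with herr
  have hcount : ∀ (sgn : Fin k × Fin k → Bool) (F : Finset (Fin k × Fin k)),
      (∀ e ∈ F, e.1 < e.2) → F.card ≤ e + 1 →
      |∑ φ : Fin k → V with Function.Injective φ,
        (∏ e ∈ F, (if sgn e = true then ind G (φ e.1) (φ e.2) else 1 - ind G (φ e.1) (φ e.2)))
          * ∏ i, (if φ i ∈ S then (1 : ℝ) else 0)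
      - (∏ e ∈ F, (if sgn e = true then d else 1 - d)) * N ^ k| ≤ err := by
    intro sgn F hF hFc
    refine le_trans (inj_count G S d (ε * N ^ 2) (by linarith) hd1 hcut sgn F hF) ?_
    rw [herr]
    apply add_le_add _ hN'
    rw [← hN, hδN]
    have h1 : (F.card : ℝ) ≤ e + 1 := by exact_mod_cast hFc
    calc (F.card : ℝ) * (ε * N ^ k) ≤ (e + 1) * (ε * N ^ k) :=
          mul_le_mul_of_nonneg_right h1 (by positivity)
      _ = (1 / 2) ^ e / (8 * (k : ℝ) ^ 2) * N ^ k := by
          rw [hε]; field_simp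
  have hd2 : (1 / 2 : ℝ) ^ e ≤ d ^ e := pow_le_pow_left₀ (by norm_num) hd0 e
  -- lower bound for each ordered pair
  have hpair : ∀ i j : Fin k, i ≠ j →
      (if H.Adj i j then (1 / 2 : ℝ) ^ e * N ^ k else 0) - 2 * err
        ≤ ∑ φ : Fin k → V with Function.Injective φ,
          (gam H G φ * ∏ i, (if φ i ∈ S then (1 : ℝ) else 0)) * ind G (φ i) (φ j) := by
    intro i j hij
    have herr0 : 0 ≤ err := by rw [herr]; positivity
    by_cases hadj : H.Adj i j
    · rw [if_pos hadj]
      have h1 := hcount (fun _ => true) (pairs H) (fun e he => ((mem_pairs H e).mp he).1)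
        (by omega)
      simp only [if_true, Finset.prod_const] at h1
      have h2 : ∑ φ : Fin k → V with Function.Injective φ,
          (gam H G φ * ∏ i, (if φ i ∈ S then (1 : ℝ) else 0)) * ind G (φ i) (φ j)
          = ∑ φ : Fin k → V with Function.Injective φ,
            (∏ e ∈ pairs H, ind G (φ e.1) (φ e.2)) * ∏ i, (if φ i ∈ S then (1 : ℝ) else 0) := by
        apply Finset.sum_congr rfl
        intro φ hφ
        have hinj := (Finset.mem_filter.mp hφ).2
        have hmem : srt i j ∈ pairs H := (srt_mem H hij).mpr hadj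
        unfold gam
        rw [prod_compl H G φ hinj]
        rcases ind_zero_or_one G (φ i) (φ j) with h0 | h0
        · have : ∏ e ∈ pairs H, ind G (φ e.1) (φ e.2) = 0 :=
            Finset.prod_eq_zero hmem (by rw [ind_srt]; exact h0)
          rw [this, h0]; ring
        · have : ∏ e ∈ pairs H, (1 - ind G (φ e.1) (φ e.2)) = 0 :=
            Finset.prod_eq_zero hmem (by rw [ind_srt, h0]; ring)
          rw [this, h0]; ring
      rw [h2]
      have h3 := (abs_le.mp h1).1
      have h4 : (1 / 2 : ℝ) ^ e * N ^ k ≤ d ^ e * N ^ k :=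
        mul_le_mul_of_nonneg_right hd2 (by positivity)
      rw [← he] at h3
      linarith
    · rw [if_neg hadj]
      have hnot : srt i j ∉ pairs H := fun h => hadj ((srt_mem H hij).mp h)
      have hF : ∀ e ∈ insert (srt i j) (pairs H), e.1 < e.2 := by
        intro e he
        rcases Finset.mem_insert.mp he with rfl | he
        · exact srt_lt hij
        · exact ((mem_pairs H e).mp he).1
      have hFc : (insert (srt i j) (pairs H)).card ≤ e + 1 := by
        rw [Finset.card_insert_of_notMem hnot]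
      have h1 := hcount (fun _ => true) (insert (srt i j) (pairs H)) hF hFc
      have h2 := hcount (fun e => decide (e = srt i j)) (insert (srt i j) (pairs H)) hF hFc
      simp only [if_true, Finset.prod_const, Finset.card_insert_of_notMem hnot] at h1
      have hprod2 : ∏ e ∈ insert (srt i j) (pairs H),
          (if decide (e = srt i j) = true then d else 1 - d) = d * (1 - d) ^ e := by
        rw [Finset.prod_insert hnot]
        congr 1
        · simp
        · rw [he, ← Finset.prod_const]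
          apply Finset.prod_congr rfl
          intro x hx
          rw [if_neg]
          simp only [decide_eq_true_eq]
          rintro rfl; exact hnot hx
      rw [hprod2] at h2
      have h3 : ∑ φ : Fin k → V with Function.Injective φ,
          (gam H G φ * ∏ i, (if φ i ∈ S then (1 : ℝ) else 0)) * ind G (φ i) (φ j)
          = ∑ φ : Fin k → V with Function.Injective φ,
            (∏ e ∈ insert (srt i j) (pairs H), ind G (φ e.1) (φ e.2))
              * ∏ i, (if φ i ∈ S then (1 : ℝ) else 0)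
            - ∑ φ : Fin k → V with Function.Injective φ,
              (∏ e ∈ insert (srt i j) (pairs H), (if decide (e = srt i j) = true then
                ind G (φ e.1) (φ e.2) else 1 - ind G (φ e.1) (φ e.2)))
                * ∏ i, (if φ i ∈ S then (1 : ℝ) else 0) := by
        rw [← Finset.sum_sub_distrib]
        apply Finset.sum_congr rfl
        intro φ hφ
        have hinj := (Finset.mem_filter.mp hφ).2
        unfold gam
        rw [prod_compl H G φ hinj, Finset.prod_insert hnot, Finset.prod_insert hnot, ind_srt]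
        have h4 : ∏ e ∈ pairs H, (if decide (e = srt i j) = true then
                ind G (φ e.1) (φ e.2) else 1 - ind G (φ e.1) (φ e.2))
            = ∏ e ∈ pairs H, (1 - ind G (φ e.1) (φ e.2)) := by
          apply Finset.prod_congr rfl
          intro x hx
          rw [if_neg]
          simp only [decide_eq_true_eq]
          rintro rfl; exact hnot hx
        rw [h4]
        simp only [decide_true, if_true]
        ring
      rw [h3]
      have h5 := (abs_le.mp h1).1
      have h6 := (abs_le.mp h2).2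
      have h7 : d * (1 - d) ^ e ≤ d ^ (e + 1) := by
        rw [pow_succ']
        apply mul_le_mul_of_nonneg_left _ (by linarith)
        exact pow_le_pow_left₀ (by linarith) (by linarith) e
      have h8 : d * (1 - d) ^ e * N ^ k ≤ d ^ (e + 1) * N ^ k :=
        mul_le_mul_of_nonneg_right h7 (by positivity)
      linarith
  -- sum over ordered pairs
  have hsum : ∑ φ : Fin k → V with Function.Injective φ,
      (gam H G φ * ∏ i, (if φ i ∈ S then (1 : ℝ) else 0)) *
        ∑ i, ∑ j ∈ Finset.univ.erase i, ind G (φ i) (φ j)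
      = ∑ i, ∑ j ∈ Finset.univ.erase i, ∑ φ : Fin k → V with Function.Injective φ,
        (gam H G φ * ∏ i, (if φ i ∈ S then (1 : ℝ) else 0)) * ind G (φ i) (φ j) := by
    simp only [Finset.mul_sum]
    rw [Finset.sum_comm]
    apply Finset.sum_congr rfl
    intro i _
    rw [Finset.sum_comm]
  have hlow : (1 / 2 : ℝ) ^ e * N ^ k - (k : ℝ) ^ 2 * (2 * err)
      ≤ ∑ φ : Fin k → V with Function.Injective φ,
      (gam H G φ * ∏ i, (if φ i ∈ S then (1 : ℝ) else 0)) *
        ∑ i, ∑ j ∈ Finset.univ.erase i, ind G (φ i) (φ j) := by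
    rw [hsum]
    have herr0 : 0 ≤ err := by rw [herr]; positivity
    calc (1 / 2 : ℝ) ^ e * N ^ k - (k : ℝ) ^ 2 * (2 * err)
        ≤ ∑ i, ∑ j ∈ Finset.univ.erase i,
          ((if H.Adj i j then (1 / 2 : ℝ) ^ e * N ^ k else 0) - 2 * err) := by
          simp only [Finset.sum_sub_distrib, Finset.sum_const]
          have h1 : (1 / 2 : ℝ) ^ e * N ^ k ≤ ∑ i : Fin k, ∑ j ∈ Finset.univ.erase i,
              (if H.Adj i j then (1 / 2 : ℝ) ^ e * N ^ k else 0) := by
            have hnn : ∀ i j : Fin k, 0 ≤ (if H.Adj i j then (1 / 2 : ℝ) ^ e * N ^ k else 0) := by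
              intro i j; split_ifs
              · positivity
              · exact le_rfl
            calc (1 / 2 : ℝ) ^ e * N ^ k = (if H.Adj i₀ j₀ then (1 / 2 : ℝ) ^ e * N ^ k else 0) := by
                  rw [if_pos hij₀]
              _ ≤ ∑ j ∈ Finset.univ.erase i₀, (if H.Adj i₀ j then (1 / 2 : ℝ) ^ e * N ^ k else 0) :=
                  Finset.single_le_sum (f := fun j => if H.Adj i₀ j then (1 / 2 : ℝ) ^ e * N ^ k else 0)
                    (fun j _ => hnn i₀ j)
                    (Finset.mem_erase.mpr ⟨hij₀.ne.symm, Finset.mem_univ _⟩)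
              _ ≤ _ := Finset.single_le_sum (f := fun i : Fin k => ∑ j ∈ Finset.univ.erase i,
                  (if H.Adj i j then (1 / 2 : ℝ) ^ e * N ^ k else 0))
                    (fun i _ => Finset.sum_nonneg (fun j _ => hnn i j)) (Finset.mem_univ i₀)
          have h2 : ∑ x : Fin k, (Finset.univ.erase x).card • (2 * err) ≤ (k : ℝ) ^ 2 * (2 * err) := by
            calc ∑ x : Fin k, (Finset.univ.erase x).card • (2 * err)
                ≤ ∑ x : Fin k, (k : ℝ) * (2 * err) := by
                  apply Finset.sum_le_sum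
                  intro x _
                  rw [nsmul_eq_mul]
                  apply mul_le_mul_of_nonneg_right _ (by linarith)
                  have : (Finset.univ.erase x).card ≤ k := by
                    calc _ ≤ (Finset.univ : Finset (Fin k)).card :=
                          Finset.card_le_card (Finset.erase_subset _ _)
                      _ = k := by simp
                  exact_mod_cast this
              _ = (k : ℝ) ^ 2 * (2 * err) := by
                  rw [Finset.sum_const, Finset.card_univ, Fintype.card_fin, nsmul_eq_mul]; ring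
          linarith
      _ ≤ _ := by
          apply Finset.sum_le_sum
          intro i _
          apply Finset.sum_le_sum
          intro j hj
          exact hpair i j (Finset.ne_of_mem_erase hj).symm
  have herr2 : (k : ℝ) ^ 2 * (2 * err) = (1 / 2) ^ e * N ^ k / 2 := by
    rw [herr]; field_simp; ring
  rw [herr2] at hlow
  have hfin := le_trans hlow (le_trans (le_abs_self _) hmain)
  have h9 : (1 / 2 : ℝ) ^ e * N ^ k / 2 ≤ C * Real.sqrt N * M := by
    rw [hN] at hfin ⊢
    linarith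
  rw [div_mul_eq_mul_div, div_le_iff₀ (by positivity)]
  linarith

/-! ### The theorem -/

/-- `h(G[S]) - h(Gᶜ[S])`, where `h` counts the subgraphs isomorphic to `H`. -/
noncomputable def gap {W : Type*} {n : ℕ} (H : SimpleGraph W) (G : SimpleGraph (Fin n))
    (S : Finset (Fin n)) : ℤ :=
  ((G.induce (S : Set (Fin n))).copyCount H : ℤ) - ((Gᶜ.induce (S : Set (Fin n))).copyCount H : ℤ)

/-- The `H`-discrepancy of `G`: the maximum over `S` of `|h(G[S]) - h(Gᶜ[S])|`. -/
noncomputable def disc {W : Type*} {n : ℕ} (H : SimpleGraph W) (G : SimpleGraph (Fin n)) : ℕ :=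
  (Finset.univ : Finset (Finset (Fin n))).sup (fun S => (gap H G S).natAbs)

/-- `f_H(n)`: the minimum of the `H`-discrepancy over all graphs on `n` vertices. -/
noncomputable def fmin {W : Type*} (H : SimpleGraph W) (n : ℕ) : ℕ :=
  sInf (Set.range (fun G : SimpleGraph (Fin n) => disc H G))

theorem gap_eq {k n : ℕ} (H : SimpleGraph (Fin k)) (G : SimpleGraph (Fin n)) (S : Finset (Fin n)) :
    (gap H G S : ℝ) * (Nat.card (H ≃g H) : ℝ)
      = ∑ φ : Fin k → Fin n with Function.Injective φ,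
        gam H G φ * ∏ i, (if φ i ∈ S then (1 : ℝ) else 0) := by
  have h1 := labelled_eq H G S
  have h2 := labelled_eq H Gᶜ S
  rw [copyCount_mul] at h1 h2
  unfold gap gam
  push_cast at h1 h2 ⊢
  rw [sub_mul, h1, h2, ← Finset.sum_sub_distrib]
  apply Finset.sum_congr rfl
  intro φ _
  ring

theorem gap_le_disc {W : Type*} {n : ℕ} (H : SimpleGraph W) (G : SimpleGraph (Fin n))
    (S : Finset (Fin n)) : |(gap H G S : ℝ)| ≤ (disc H G : ℝ) := by
  have h1 : (gap H G S).natAbs ≤ disc H G :=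
    Finset.le_sup (f := fun S => (gap H G S).natAbs) (Finset.mem_univ S)
  have h2 : |(gap H G S : ℝ)| = ((gap H G S).natAbs : ℝ) := by
    rw [Nat.cast_natAbs]; simp
  rw [h2]; exact_mod_cast h1

theorem disc_le {W : Type*} {n : ℕ} (H : SimpleGraph W) (G : SimpleGraph (Fin n)) (B : ℝ)
    (hB : 0 ≤ B) (h : ∀ S, |(gap H G S : ℝ)| ≤ B) : (disc H G : ℝ) ≤ B := by
  have h1 : disc H G ≤ ⌊B⌋₊ := by
    apply Finset.sup_le
    intro S _
    apply Nat.le_floor
    have h2 : |(gap H G S : ℝ)| = ((gap H G S).natAbs : ℝ) := by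
      rw [Nat.cast_natAbs]; simp
    rw [← h2]; exact h S
  exact le_trans (by exact_mod_cast h1) (Nat.floor_le hB)

/-- Lower bound for every graph. -/
theorem lower (k : ℕ) (H : SimpleGraph (Fin k)) (hH : H ≠ ⊥) : ∃ c : ℝ, 0 < c ∧ ∃ n₀ : ℕ,
    ∀ n : ℕ, n₀ ≤ n → ∀ G : SimpleGraph (Fin n),
      c * (n : ℝ) ^ k ≤ (disc H G : ℝ) * Real.sqrt n := by
  classical
  obtain ⟨c₀, hc₀, ε, hε, N₀, hcore⟩ := lower_core k H hH
  obtain ⟨c₁, hc₁, n₁, hq⟩ := quasirandom_subset (ε / 2) (by positivity)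
  set a : ℝ := (Nat.card (H ≃g H) : ℝ) with ha
  have hapos : 0 < a := by rw [ha]; exact_mod_cast aut_pos
  obtain ⟨n₂, hn₂⟩ := exists_nat_ge ((N₀ + 2 / ε) / c₁)
  refine ⟨c₀ * c₁ ^ k / a, by positivity, n₁ + n₂ + 1, ?_⟩
  intro n hn G
  have hnpos : (0 : ℝ) < n := by exact_mod_cast (by omega : 0 < n)
  obtain ⟨S, hS, d, hd0, hd1, hcut⟩ := hq (Fin n) G (by rw [Fintype.card_fin]; omega)
  rw [Fintype.card_fin] at hS
  have hSbig : (N₀ : ℝ) + 2 / ε ≤ S.card := by
    have h1 : (n₂ : ℝ) ≤ n := by exact_mod_cast (by omega : n₂ ≤ n)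
    have h2 : (N₀ + 2 / ε) / c₁ ≤ (n : ℝ) := le_trans hn₂ h1
    rw [div_le_iff₀ hc₁] at h2
    linarith
  have hSN : N₀ ≤ S.card := by
    have h1 : (0 : ℝ) < 2 / ε := by positivity
    have : (N₀ : ℝ) ≤ S.card := by linarith
    exact_mod_cast this
  have hS2 : 2 / ε ≤ (S.card : ℝ) := by
    have : (0 : ℝ) ≤ N₀ := Nat.cast_nonneg _
    linarith
  have hSn : (S.card : ℝ) ≤ n := by
    have := Finset.card_le_univ S
    rw [Fintype.card_fin] at this
    exact_mod_cast this
  have hdiscM : ∀ T : Finset (Fin n), |∑ φ : Fin k → Fin n with Function.Injective φ,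
        gam H G φ * ∏ i, (if φ i ∈ T then (1 : ℝ) else 0)| ≤ (disc H G : ℝ) * a := by
    intro T
    rw [← gap_eq, abs_mul, abs_of_pos hapos]
    exact mul_le_mul_of_nonneg_right (gap_le_disc H G T) hapos.le
  have key : c₀ * (S.card : ℝ) ^ k ≤ (disc H G : ℝ) * a * Real.sqrt S.card := by
    rcases le_total (1 / 2) d with hd | hd
    · refine hcore (Fin n) G S d hd hd1 ?_ hSN _ hdiscM
      intro A hA B hB
      refine le_trans (hcut A hA B hB) ?_
      have : 0 ≤ ε * (S.card : ℝ) ^ 2 := mul_nonneg hε.le (sq_nonneg _)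
      linarith
    · refine hcore (Fin n) Gᶜ S (1 - d) (by linarith) (by linarith) ?_ hSN _ ?_
      · intro A hA B hB
        have h1 : ∑ u ∈ A, ∑ v ∈ B, (ind Gᶜ u v - (1 - d))
            = - (∑ u ∈ A, ∑ v ∈ B, (ind G u v - d)) - ((A ∩ B).card : ℝ) := by
          have h2 : ∀ u v : Fin n, ind Gᶜ u v - (1 - d)
              = - (ind G u v - d) - (if u = v then (1 : ℝ) else 0) := by
            intro u v
            by_cases huv : u = v
            · subst huv
              rw [if_pos rfl, ind_neg (G := G) (by simp), ind_neg (G := Gᶜ) (by simp)]; ring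
            · rw [if_neg huv, ind_compl G huv]; ring
          have h3 : ((A ∩ B).card : ℝ) = ∑ u ∈ A, ∑ v ∈ B, (if u = v then (1 : ℝ) else 0) := by
            rw [Finset.sum_congr rfl (fun u _ => Finset.sum_ite_eq B u (fun _ => (1 : ℝ)))]
            rw [← Finset.sum_filter, Finset.sum_const, nsmul_eq_mul, mul_one,
              Finset.filter_mem_eq_inter]
          rw [h3, ← Finset.sum_neg_distrib, ← Finset.sum_sub_distrib]
          apply Finset.sum_congr rfl
          intro u _
          rw [← Finset.sum_neg_distrib, ← Finset.sum_sub_distrib]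
          apply Finset.sum_congr rfl
          intro v _
          exact h2 u v
        rw [h1]
        have h4 : ((A ∩ B).card : ℝ) ≤ S.card := by
          exact_mod_cast Finset.card_le_card (Finset.inter_subset_left.trans hA)
        have h5 : (S.card : ℝ) ≤ ε / 2 * (S.card : ℝ) ^ 2 := by
          have h6 : 1 ≤ ε / 2 * (S.card : ℝ) := by
            have := (div_le_iff₀ hε).mp hS2
            linarith
          have h7 : (0 : ℝ) ≤ S.card := Nat.cast_nonneg _
          nlinarith
        calc |-(∑ u ∈ A, ∑ v ∈ B, (ind G u v - d)) - ((A ∩ B).card : ℝ)|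
            ≤ |-(∑ u ∈ A, ∑ v ∈ B, (ind G u v - d))| + |((A ∩ B).card : ℝ)| := abs_sub _ _
          _ ≤ ε / 2 * (S.card : ℝ) ^ 2 + ε / 2 * (S.card : ℝ) ^ 2 := by
              rw [abs_neg, abs_of_nonneg (Nat.cast_nonneg _ : (0 : ℝ) ≤ ((A ∩ B).card : ℝ))]
              exact add_le_add (hcut A hA B hB) (le_trans h4 h5)
          _ = ε * (S.card : ℝ) ^ 2 := by ring
      · intro T
        have h1 : ∑ φ : Fin k → Fin n with Function.Injective φ,
            gam H Gᶜ φ * ∏ i, (if φ i ∈ T then (1 : ℝ) else 0)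
            = - ∑ φ : Fin k → Fin n with Function.Injective φ,
            gam H G φ * ∏ i, (if φ i ∈ T then (1 : ℝ) else 0) := by
          rw [← Finset.sum_neg_distrib]
          apply Finset.sum_congr rfl
          intro φ _
          rw [gam_compl]; ring
        rw [h1, abs_neg]
        exact hdiscM T
  have h1 : (c₁ * (n : ℝ)) ^ k ≤ (S.card : ℝ) ^ k := pow_le_pow_left₀ (by positivity) hS k
  have h2 : Real.sqrt S.card ≤ Real.sqrt n := Real.sqrt_le_sqrt hSn
  have hdnn : (0 : ℝ) ≤ (disc H G : ℝ) := Nat.cast_nonneg _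
  have h3 : c₀ * (c₁ * (n : ℝ)) ^ k ≤ (disc H G : ℝ) * a * Real.sqrt n := by
    calc c₀ * (c₁ * (n : ℝ)) ^ k ≤ c₀ * (S.card : ℝ) ^ k := mul_le_mul_of_nonneg_left h1 hc₀.le
      _ ≤ (disc H G : ℝ) * a * Real.sqrt S.card := key
      _ ≤ (disc H G : ℝ) * a * Real.sqrt n :=
          mul_le_mul_of_nonneg_left h2 (mul_nonneg hdnn hapos.le)
  rw [mul_pow] at h3
  rw [div_mul_eq_mul_div, div_le_iff₀ hapos]
  linarith

/-- Upper bound by an explicit graph. -/
theorem upper (k : ℕ) (H : SimpleGraph (Fin k)) (hH : H ≠ ⊥) : ∃ C : ℝ, 0 < C ∧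
    ∀ n : ℕ, 1 ≤ n → ∃ G : SimpleGraph (Fin n), (disc H G : ℝ) * Real.sqrt n ≤ C * (n : ℝ) ^ k := by
  classical
  have hedge : ∃ i j : Fin k, H.Adj i j := by
    by_contra hcon
    push Not at hcon
    apply hH
    ext i j
    simp [hcon i j]
  obtain ⟨i₀, j₀, hij₀⟩ := hedge
  have hk2 : 2 ≤ k := by
    rcases i₀ with ⟨i, hi⟩; rcases j₀ with ⟨j, hj⟩
    have : i ≠ j := fun h => hij₀.ne (by subst h; rfl)
    omega
  set e : ℕ := (pairs H).card with he
  refine ⟨4 * e + 2 * (k : ℝ) ^ 2 + 1, by positivity, ?_⟩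
  intro n hn
  obtain ⟨G, hG⟩ := exists_graph n hn
  refine ⟨G, ?_⟩
  have hnR : (1 : ℝ) ≤ n := by exact_mod_cast hn
  have hsq1 : (1 : ℝ) ≤ Real.sqrt n := by
    rw [show (1 : ℝ) = Real.sqrt 1 by simp]
    exact Real.sqrt_le_sqrt hnR
  have hsqsq : Real.sqrt n * Real.sqrt n = n := Real.mul_self_sqrt (by linarith)
  have hapos : (1 : ℝ) ≤ (Nat.card (H ≃g H) : ℝ) := by exact_mod_cast (aut_pos (H := H))
  have hB : ∀ S : Finset (Fin n), |(gap H G S : ℝ)|
      ≤ (4 * e + 2 * (k : ℝ) ^ 2 + 1) * ((n : ℝ) ^ (k - 1) * Real.sqrt n) := by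
    intro S
    have hSn : (S.card : ℝ) ≤ n := by
      have := Finset.card_le_univ S
      rw [Fintype.card_fin] at this
      exact_mod_cast this
    have hS0 : (0 : ℝ) ≤ S.card := Nat.cast_nonneg _
    have hc : ∀ sgn : Fin k × Fin k → Bool, |∑ φ : Fin k → Fin n with Function.Injective φ,
        (∏ e ∈ pairs H, (if sgn e = true then ind G (φ e.1) (φ e.2)
          else 1 - ind G (φ e.1) (φ e.2))) * ∏ i, (if φ i ∈ S then (1 : ℝ) else 0)
        - (∏ e ∈ pairs H, (if sgn e = true then (1 / 2 : ℝ) else 1 - 1 / 2)) * (S.card : ℝ) ^ k|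
        ≤ (2 * e + (k : ℝ) ^ 2) * ((n : ℝ) ^ (k - 1) * Real.sqrt n) := by
      intro sgn
      refine le_trans (inj_count G S (1 / 2) (2 * (n * Real.sqrt n)) (by norm_num) (by norm_num)
        (fun A _ B _ => hG A B) sgn (pairs H) (fun e he => ((mem_pairs H e).mp he).1)) ?_
      have h1 : (S.card : ℝ) ^ (k - 2) ≤ (n : ℝ) ^ (k - 2) := pow_le_pow_left₀ hS0 hSn _
      have h2 : (S.card : ℝ) ^ (k - 1) ≤ (n : ℝ) ^ (k - 1) := pow_le_pow_left₀ hS0 hSn _
      have h3 : (n : ℝ) ^ (k - 1) = n * (n : ℝ) ^ (k - 2) := by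
        rw [← pow_succ']; congr 1; omega
      have hnp : (0 : ℝ) ≤ (n : ℝ) ^ (k - 1) := pow_nonneg (by linarith) _
      have h4 : 2 * ((n : ℝ) * Real.sqrt n) * (S.card : ℝ) ^ (k - 2)
          ≤ 2 * ((n : ℝ) ^ (k - 1) * Real.sqrt n) := by
        calc 2 * ((n : ℝ) * Real.sqrt n) * (S.card : ℝ) ^ (k - 2)
            ≤ 2 * ((n : ℝ) * Real.sqrt n) * (n : ℝ) ^ (k - 2) :=
              mul_le_mul_of_nonneg_left h1 (mul_nonneg (by norm_num)
                (mul_nonneg (by linarith) (Real.sqrt_nonneg _)))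
          _ = 2 * ((n : ℝ) ^ (k - 1) * Real.sqrt n) := by rw [h3]; ring
      have h5 : (k : ℝ) ^ 2 * (S.card : ℝ) ^ (k - 1)
          ≤ (k : ℝ) ^ 2 * ((n : ℝ) ^ (k - 1) * Real.sqrt n) := by
        apply mul_le_mul_of_nonneg_left _ (sq_nonneg _)
        calc (S.card : ℝ) ^ (k - 1) ≤ (n : ℝ) ^ (k - 1) * 1 := by rw [mul_one]; exact h2
          _ ≤ (n : ℝ) ^ (k - 1) * Real.sqrt n := mul_le_mul_of_nonneg_left hsq1 hnp
      have h6 : ((pairs H).card : ℝ) * (2 * ((n : ℝ) * Real.sqrt n) * (S.card : ℝ) ^ (k - 2))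
          ≤ e * (2 * ((n : ℝ) ^ (k - 1) * Real.sqrt n)) :=
        mul_le_mul_of_nonneg_left h4 (Nat.cast_nonneg _)
      linarith
    have h1 := hc (fun _ => true)
    have h2 := hc (fun _ => false)
    simp only [if_true, Bool.false_eq_true, if_false, Finset.prod_const] at h1 h2
    have hhalf : (1 - 1 / 2 : ℝ) = 1 / 2 := by norm_num
    rw [hhalf] at h2
    have hrep : (gap H G S : ℝ) * (Nat.card (H ≃g H) : ℝ)
        = (∑ φ : Fin k → Fin n with Function.Injective φ,
          (∏ e ∈ pairs H, ind G (φ e.1) (φ e.2)) * ∏ i, (if φ i ∈ S then (1 : ℝ) else 0))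
        - (∑ φ : Fin k → Fin n with Function.Injective φ,
          (∏ e ∈ pairs H, (1 - ind G (φ e.1) (φ e.2))) *
            ∏ i, (if φ i ∈ S then (1 : ℝ) else 0)) := by
      rw [gap_eq, ← Finset.sum_sub_distrib]
      apply Finset.sum_congr rfl
      intro φ hφ
      unfold gam
      rw [prod_compl H G φ (Finset.mem_filter.mp hφ).2]; ring
    have hnn : 0 ≤ (n : ℝ) ^ (k - 1) * Real.sqrt n :=
      mul_nonneg (pow_nonneg (by linarith) _) (Real.sqrt_nonneg _)
    have h3 : |(gap H G S : ℝ) * (Nat.card (H ≃g H) : ℝ)|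
        ≤ 2 * ((2 * e + (k : ℝ) ^ 2) * ((n : ℝ) ^ (k - 1) * Real.sqrt n)) := by
      rw [hrep, abs_le]
      have h1' := abs_le.mp h1
      have h2' := abs_le.mp h2
      constructor <;> linarith
    rw [abs_mul, abs_of_nonneg (by linarith : (0 : ℝ) ≤ (Nat.card (H ≃g H) : ℝ))] at h3
    have h4 : |(gap H G S : ℝ)| ≤ |(gap H G S : ℝ)| * (Nat.card (H ≃g H) : ℝ) := by
      nlinarith [abs_nonneg (gap H G S : ℝ)]
    linarith
  have hd := disc_le H G _ (mul_nonneg (by positivity)
    (mul_nonneg (pow_nonneg (by linarith) _) (Real.sqrt_nonneg _))) hB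
  calc (disc H G : ℝ) * Real.sqrt n
      ≤ ((4 * e + 2 * (k : ℝ) ^ 2 + 1) * ((n : ℝ) ^ (k - 1) * Real.sqrt n)) * Real.sqrt n :=
        mul_le_mul_of_nonneg_right hd (Real.sqrt_nonneg _)
    _ = (4 * e + 2 * (k : ℝ) ^ 2 + 1) * ((n : ℝ) ^ (k - 1) * (Real.sqrt n * Real.sqrt n)) := by
        ring
    _ = (4 * e + 2 * (k : ℝ) ^ 2 + 1) * (n : ℝ) ^ k := by
        rw [hsqsq, ← pow_succ]
        congr 2
        omega

theorem rpow_eq (n k : ℕ) (hn : 1 ≤ n) :
    (n : ℝ) ^ ((k : ℝ) - 1 / 2) * Real.sqrt n = (n : ℝ) ^ k := by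
  have hnpos : (0 : ℝ) < n := by exact_mod_cast hn
  rw [Real.sqrt_eq_rpow, ← Real.rpow_add hnpos, ← Real.rpow_natCast]
  congr 1; ring

theorem theta_fin (k : ℕ) (H : SimpleGraph (Fin k)) (hH : H ≠ ⊥) :
    (fun n : ℕ => (fmin H n : ℝ)) =Θ[Filter.atTop] (fun n : ℕ => (n : ℝ) ^ ((k : ℝ) - 1 / 2)) := by
  obtain ⟨c, hc, n₀, hlow⟩ := lower k H hH
  obtain ⟨C, hC, hup⟩ := upper k H hH
  constructor
  · apply Asymptotics.IsBigO.of_bound C
    filter_upwards [Filter.eventually_ge_atTop 1] with n hn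
    obtain ⟨G, hG⟩ := hup n hn
    have hnpos : (0 : ℝ) < n := by exact_mod_cast hn
    have hspos : 0 < Real.sqrt n := Real.sqrt_pos.mpr hnpos
    have h1 : fmin H n ≤ disc H G := Nat.sInf_le ⟨G, rfl⟩
    have h2 : (fmin H n : ℝ) ≤ (disc H G : ℝ) := by exact_mod_cast h1
    rw [Real.norm_of_nonneg (Nat.cast_nonneg _),
      Real.norm_of_nonneg (Real.rpow_nonneg hnpos.le _)]
    have h3 : (fmin H n : ℝ) * Real.sqrt n ≤ (C * (n : ℝ) ^ ((k : ℝ) - 1 / 2)) * Real.sqrt n := by
      calc (fmin H n : ℝ) * Real.sqrt n ≤ (disc H G : ℝ) * Real.sqrt n :=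
            mul_le_mul_of_nonneg_right h2 hspos.le
        _ ≤ C * (n : ℝ) ^ k := hG
        _ = (C * (n : ℝ) ^ ((k : ℝ) - 1 / 2)) * Real.sqrt n := by
            rw [mul_assoc, rpow_eq n k hn]
    exact le_of_mul_le_mul_right h3 hspos
  · apply Asymptotics.IsBigO.of_bound (1 / c)
    filter_upwards [Filter.eventually_ge_atTop (n₀ + 1)] with n hn
    have hn1 : 1 ≤ n := by omega
    have hnpos : (0 : ℝ) < n := by exact_mod_cast hn1
    have hspos : 0 < Real.sqrt n := Real.sqrt_pos.mpr hnpos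
    obtain ⟨G, hG⟩ : ∃ G : SimpleGraph (Fin n), disc H G = fmin H n :=
      Nat.sInf_mem (Set.range_nonempty (fun G : SimpleGraph (Fin n) => disc H G))
    rw [Real.norm_of_nonneg (Nat.cast_nonneg _),
      Real.norm_of_nonneg (Real.rpow_nonneg hnpos.le _), ← hG]
    have h1 := hlow n (by omega) G
    rw [← rpow_eq n k hn1, ← mul_assoc] at h1
    have h2 := le_of_mul_le_mul_right h1 hspos
    rw [div_mul_eq_mul_div, one_mul, le_div_iff₀ hc]
    linarith

theorem copyCount_congr {V W W' : Type*} [Fintype V] (G : SimpleGraph V) {H : SimpleGraph W}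
    {H' : SimpleGraph W'} (e : H ≃g H') : G.copyCount H = G.copyCount H' := by
  classical
  unfold SimpleGraph.copyCount
  congr 1
  apply Finset.filter_congr
  intro G' _
  exact ⟨fun ⟨f⟩ => ⟨e.symm.trans f⟩, fun ⟨f⟩ => ⟨e.trans f⟩⟩

theorem fmin_congr {W W' : Type*} {H : SimpleGraph W} {H' : SimpleGraph W'} (e : H ≃g H') (n : ℕ) :
    fmin H n = fmin H' n := by
  unfold fmin disc gap
  congr 2
  ext G
  congr 1
  ext S
  rw [copyCount_congr _ e, copyCount_congr _ e]

/-- If `H` has no edge the two counts agree on every set. -/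
theorem fmin_bot_fin (k n : ℕ) : fmin (⊥ : SimpleGraph (Fin k)) n = 0 := by
  classical
  have hdisc : ∀ G : SimpleGraph (Fin n), disc (⊥ : SimpleGraph (Fin k)) G = 0 := by
    intro G
    unfold disc
    apply Nat.eq_zero_of_le_zero
    apply Finset.sup_le
    intro S _
    have h1 := gap_eq (⊥ : SimpleGraph (Fin k)) G S
    have h2 : ∀ φ : Fin k → Fin n, gam (⊥ : SimpleGraph (Fin k)) G φ = 0 := by
      intro φ
      have hp : pairs (⊥ : SimpleGraph (Fin k)) = ∅ := by
        ext e; rw [mem_pairs]; simp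
      unfold gam
      rw [hp]; simp
    have h3 : (gap (⊥ : SimpleGraph (Fin k)) G S : ℝ)
        * (Nat.card ((⊥ : SimpleGraph (Fin k)) ≃g (⊥ : SimpleGraph (Fin k))) : ℝ) = 0 := by
      rw [h1]
      apply Finset.sum_eq_zero
      intro φ _
      rw [h2 φ]; ring
    have h4 : (Nat.card ((⊥ : SimpleGraph (Fin k)) ≃g (⊥ : SimpleGraph (Fin k))) : ℝ) ≠ 0 := by
      have := aut_pos (H := (⊥ : SimpleGraph (Fin k)))
      exact_mod_cast this.ne'
    have h5 : (gap (⊥ : SimpleGraph (Fin k)) G S : ℝ) = 0 :=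
      (mul_eq_zero.mp h3).resolve_right h4
    have h6 : gap (⊥ : SimpleGraph (Fin k)) G S = 0 := by exact_mod_cast h5
    rw [h6]; simp
  have : fmin (⊥ : SimpleGraph (Fin k)) n ≤ disc (⊥ : SimpleGraph (Fin k)) (⊥ : SimpleGraph (Fin n)) :=
    Nat.sInf_le ⟨⊥, rfl⟩
  rw [hdisc] at this
  omega

theorem bot_of_iso {W W' : Type*} {H : SimpleGraph W} {H' : SimpleGraph W'} (e : H ≃g H')
    (h : H' = ⊥) : H = ⊥ := by
  subst h
  ext u v
  rw [← e.map_adj_iff]
  simp

/-- **Theorem.** For every finite graph `H` with at least one edge,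
`f_H(n) = Θ(n ^ (v(H) - 1/2))`; for an edgeless `H`, `f_H(n) = 0` for every `n`. -/
theorem result {W : Type} [Fintype W] (H : SimpleGraph W) :
    (H ≠ ⊥ → (fun n : ℕ => (fmin H n : ℝ)) =Θ[Filter.atTop]
      (fun n : ℕ => (n : ℝ) ^ ((Fintype.card W : ℝ) - 1 / 2))) ∧
    (H = ⊥ → ∀ n : ℕ, fmin H n = 0) := by
  classical
  have hiso : H ≃g H.overFin rfl := H.overFinIso rfl
  constructor
  · intro hH
    have hH' : H.overFin rfl ≠ ⊥ := fun h => hH (bot_of_iso hiso h)
    have h1 := theta_fin (Fintype.card W) (H.overFin rfl) hH'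
    have h2 : ∀ n : ℕ, fmin H n = fmin (H.overFin rfl) n := fun n => fmin_congr hiso n
    simpa only [h2] using h1
  · intro hH n
    have h1 : H.overFin rfl = ⊥ := bot_of_iso hiso.symm hH
    rw [fmin_congr hiso n, h1]
    exact fmin_bot_fin _ n

end Pool.Agent.Results.MP_e6b4fa_co.Theta
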